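import Pool.Agent.H752.AG.Base

/-!
# Task B1: random restrictions make bounded formulas shallow
-/

namespace Pool.Agent.H752.AG

open Finset H568R2 Pool.Agent.H676 Pool.Agent.H620R2.Gauge

namespace B1

open Classical in
/-- indicator -/
noncomputable def bi (P : Prop) : ℝ := if P then 1 else 0

lemma bi_eq (P : Prop) [Decidable P] : (if P then (1 : ℝ) else 0) = bi P := by
  unfold bi
  by_cases h : P
  · rw [if_pos h, if_pos h]
  · rw [if_neg h, if_neg h]

lemma bi_pos {P : Prop} (h : P) : bi P = 1 := by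
  unfold bi
  rw [if_pos h]

lemma bi_neg {P : Prop} (h : ¬ P) : bi P = 0 := by
  unfold bi
  rw [if_neg h]

lemma bi_nonneg (P : Prop) : 0 ≤ bi P := by
  by_cases h : P
  · rw [bi_pos h]; norm_num
  · rw [bi_neg h]

lemma bi_le (P : Prop) : bi P ≤ 1 := by
  by_cases h : P
  · rw [bi_pos h]
  · rw [bi_neg h]; norm_num

section

variable {I : Type*} [Fintype I] [DecidableEq I]

lemma ind_le_one {p : ℝ} (h0 : 0 ≤ p) (h1 : p ≤ 1) (P : Restr I → Prop) :
    Ex (wq p) (fun ρ : Restr I => bi (P ρ)) ≤ 1 := by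
  have h : Ex (wq p) (fun ρ : Restr I => bi (P ρ)) ≤
      Ex (wq p) (fun _ : Restr I => (1 : ℝ)) :=
    Ex_mono (wq_nonneg h0 h1) (fun τ => bi_le _)
  rwa [Ex_const (wq_sum p)] at h

/-- more restriction does not hurt -/
lemma pad {q : ℝ} (h0 : 0 ≤ q) (h1 : q ≤ 1) {n m : ℕ} (hnm : n ≤ m) (good : Restr I → Prop)
    (hg : ∀ ρ τ, good ρ → good (cmp ρ τ)) :
    Ex (wq (q ^ m)) (fun ρ : Restr I => bi (¬ good ρ)) ≤
      Ex (wq (q ^ n)) (fun ρ : Restr I => bi (¬ good ρ)) := by
  have hm : q ^ m = q ^ n * q ^ (m - n) := by rw [← pow_add, Nat.add_sub_cancel' hnm]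
  rw [hm, wq_cmp]
  apply Ex_mono (wq_nonneg (pow_nonneg h0 n) (pow_le_one₀ h0 h1))
  intro ρ
  by_cases hρ : good ρ
  · have hz : (fun τ : Restr I => bi (¬ good (cmp ρ τ))) = fun _ => 0 := by
      funext τ
      rw [bi_neg (not_not.2 (hg ρ τ hρ))]
    rw [hz, bi_neg (not_not.2 hρ)]
    exact (Ex_const (wq_sum _) 0).le
  · rw [bi_pos hρ]
    exact ind_le_one (pow_nonneg h0 _) (pow_le_one₀ h0 h1) (fun τ => ¬ good (cmp ρ τ))

/-- one round of the switching lemma -/
lemma round {t : ℕ} (ht : 1 ≤ t) {q : ℝ} (h0 : 0 ≤ q) (h1 : q ≤ 1 / 3) {p : ℝ} (p0 : 0 ≤ p)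
    (p1 : p ≤ 1) {α : Type*} (good : Restr I → Prop) (S : Finset α)
    (G : α → (I → Bool) → Bool) (b : Bool)
    (h : ∀ ρ, good ρ → ∀ y ∈ S, Cert t b (rs (G y) ρ)) :
    Ex (wq (p * q)) (fun ρ : Restr I => bi (¬ ∀ y ∈ S, DTr t (rs (G y) ρ))) ≤
      Ex (wq p) (fun ρ : Restr I => bi (¬ good ρ)) +
        S.card * (12 * t * q) ^ (t + 1) := by
  rw [wq_cmp]
  set ε : ℝ := (12 * t * q) ^ (t + 1) with hε
  have hε0 : 0 ≤ ε := by positivity
  have hwp : ∀ a, 0 ≤ wq p a := wq_nonneg p0 p1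
  have hw1 : ∀ a, 0 ≤ wq q a := wq_nonneg h0 (by linarith)
  have hin : ∀ ρ : Restr I, Ex (wq q) (fun τ : Restr I =>
      bi (¬ ∀ y ∈ S, DTr t (rs (G y) (cmp ρ τ)))) ≤
      bi (¬ good ρ) + S.card * ε := by
    intro ρ
    by_cases hG : good ρ
    · rw [bi_neg (not_not.2 hG), zero_add]
      have hnn : ∀ τ : Restr I, ∀ y ∈ S, (0 : ℝ) ≤
          bi (¬ DTr t (rs (rs (G y) ρ) τ)) := fun τ y _ => bi_nonneg _
      have hpt : ∀ τ : Restr I, bi (¬ ∀ y ∈ S, DTr t (rs (G y) (cmp ρ τ))) ≤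
          ∑ y ∈ S, bi (¬ DTr t (rs (rs (G y) ρ) τ)) := by
        intro τ
        by_cases hGG : ∀ y ∈ S, DTr t (rs (G y) (cmp ρ τ))
        · rw [bi_neg (not_not.2 hGG)]
          exact Finset.sum_nonneg (hnn τ)
        · rw [bi_pos hGG]
          have hex : ∃ y ∈ S, ¬ DTr t (rs (G y) (cmp ρ τ)) := by
            by_contra hcon
            apply hGG
            intro y hy
            by_contra hJ
            exact hcon ⟨y, hy, hJ⟩
          obtain ⟨y, hy, hJ⟩ := hex
          rw [rs_cmp] at hJ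
          refine le_trans ?_ (Finset.single_le_sum (hnn τ) hy)
          rw [bi_pos hJ]
      refine (Ex_mono hw1 hpt).trans ?_
      rw [Ex_sum]
      have hterm : ∀ y ∈ S, Ex (wq q) (fun τ : Restr I =>
          bi (¬ DTr t (rs (rs (G y) ρ) τ))) ≤ ε := by
        intro y hy
        have hs := switch (k := t) ht h0 h1 (b := b) (h ρ hG y hy)
        simp only [bi_eq] at hs
        exact hs
      refine (Finset.sum_le_sum hterm).trans ?_
      rw [Finset.sum_const, nsmul_eq_mul]
    · rw [bi_pos hG]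
      have hle := ind_le_one h0 (by linarith : q ≤ 1)
        (fun τ : Restr I => ¬ ∀ y ∈ S, DTr t (rs (G y) (cmp ρ τ)))
      have : 0 ≤ (S.card : ℝ) * ε := by positivity
      linarith
  refine (Ex_mono hwp hin).trans ?_
  rw [Ex_add, Ex_const (wq_sum _)]

end

/-- the finite set of the assignments in the box -/
noncomputable def boxF (w X : ℕ) : Finset (ℕ → ℕ) := by
  classical
  exact (Finset.univ : Finset (Fin w → Fin (X + 1))).image
    (fun f i => if h : i < w then (f ⟨i, h⟩ : ℕ) else 0)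

lemma mem_boxF {w X : ℕ} {v : ℕ → ℕ} (hv : v ∈ Box w X) : v ∈ boxF w X := by
  classical
  unfold boxF
  rw [Finset.mem_image]
  refine ⟨fun i => ⟨v i, by have := hv.1 i i.2; omega⟩, Finset.mem_univ _, ?_⟩
  funext i
  by_cases hi : i < w
  · simp [hi]
  · simp only [hi, dif_neg, not_false_eq_true]
    exact (hv.2 i (by omega)).symm

lemma box_of_mem {w X : ℕ} {v : ℕ → ℕ} (hv : v ∈ boxF w X) : v ∈ Box w X := by
  classical
  unfold boxF at hv
  rw [Finset.mem_image] at hv
  obtain ⟨f, _, rfl⟩ := hv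
  constructor
  · intro i hi
    simp only [hi, dif_pos]
    have := (f ⟨i, hi⟩).2
    omega
  · intro i hi
    simp only [not_lt.2 hi, dif_neg, not_false_eq_true]

lemma card_boxF (w X : ℕ) : (boxF w X).card ≤ (X + 1) ^ w := by
  classical
  unfold boxF
  refine Finset.card_image_le.trans ?_
  simp

lemma val_mono (t : Tm) {v v' : ℕ → ℕ} (h : ∀ i, v i ≤ v' i) : t.val v ≤ t.val v' := by
  induction t with
  | var i => exact h i
  | zero => exact le_rfl
  | one => exact le_rfl
  | add s t ihs iht => exact Nat.add_le_add ihs iht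
  | mul s t ihs iht => exact Nat.mul_le_mul ihs iht

lemma cons_mem {w X x : ℕ} {v : ℕ → ℕ} (u : Tm) (hv : v ∈ Box w X) (hx : x ≤ u.val v) :
    cons x v ∈ Box (w + 1) (nxt u X) := by
  have hvX : ∀ i, v i ≤ X := by
    intro i
    by_cases hi : i < w
    · exact hv.1 i hi
    · rw [hv.2 i (by omega)]
      exact Nat.zero_le _
  have hu : u.val v ≤ u.val (fun _ => X) := val_mono u hvX
  constructor
  · intro i _
    cases i with
    | zero =>
      show x ≤ nxt u X
      unfold nxt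
      omega
    | succ i =>
      show v i ≤ nxt u X
      have := hvX i
      unfold nxt
      omega
  · intro i hi
    cases i with
    | zero => omega
    | succ i => exact hv.2 i (by omega)

end B1

open B1 in
open Classical in
theorem switch_BF {N t : ℕ} (ht : 1 ≤ t) {q : ℝ} (h0 : 0 ≤ q) (h1 : q ≤ 1 / 3) (φ : BF)
    (w X : ℕ) :
    Ex (wq (q ^ φ.dep)) (fun ρ : Restr (Fin N) => if ¬ ∀ v ∈ Box w X,
      DTr t (rs (fun a : Fin N → Bool => decide (φ.sat (ext N a) v)) ρ) then (1 : ℝ) else 0) ≤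
      φ.cnt w X * (12 * t * q) ^ (t + 1) := by
  have hq1 : q ≤ 1 := by linarith
  simp only [bi_eq]
  induction φ generalizing w X with
  | eq s u =>
    have hz : (fun ρ : Restr (Fin N) => bi (¬ ∀ v ∈ Box w X,
        DTr t (rs (fun a : Fin N → Bool => decide ((BF.eq s u).sat (ext N a) v)) ρ)))
        = fun _ => 0 := by
      funext ρ
      rw [bi_neg (not_not.2 ?_)]
      intro v _
      exact DTr.const ⟨decide (s.val v = u.val v), fun x => by simp [rs, BF.sat]⟩
    rw [hz, Ex_const (wq_sum _)]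
    simp [BF.cnt]
  | le s u =>
    have hz : (fun ρ : Restr (Fin N) => bi (¬ ∀ v ∈ Box w X,
        DTr t (rs (fun a : Fin N → Bool => decide ((BF.le s u).sat (ext N a) v)) ρ)))
        = fun _ => 0 := by
      funext ρ
      rw [bi_neg (not_not.2 ?_)]
      intro v _
      exact DTr.const ⟨decide (s.val v ≤ u.val v), fun x => by simp [rs, BF.sat]⟩
    rw [hz, Ex_const (wq_sum _)]
    simp [BF.cnt]
  | orc u =>
    have hz : (fun ρ : Restr (Fin N) => bi (¬ ∀ v ∈ Box w X,
        DTr t (rs (fun a : Fin N → Bool => decide ((BF.orc u).sat (ext N a) v)) ρ)))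
        = fun _ => 0 := by
      funext ρ
      rw [bi_neg (not_not.2 ?_)]
      intro v _
      apply DTr.rs
      apply DTr.mono (k := 1) _ ht
      by_cases hN : u.val v < N
      · refine Or.inr ⟨⟨u.val v, hN⟩, fun b => ⟨b, fun x => ?_⟩⟩
        simp [BF.sat, ext, hN]
      · refine DTr.const ⟨false, fun x => ?_⟩
        simp [BF.sat, ext, hN]
    rw [hz, Ex_const (wq_sum _)]
    simp [BF.cnt]
  | neg φ ih =>
    refine le_trans (Ex_mono (wq_nonneg (pow_nonneg h0 _) (pow_le_one₀ h0 hq1)) fun ρ => ?_)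
      (ih w X)
    by_cases hg : ∀ v ∈ Box w X,
        DTr t (rs (fun a : Fin N → Bool => decide (φ.sat (ext N a) v)) ρ)
    · have hg' : ∀ v ∈ Box w X,
          DTr t (rs (fun a : Fin N → Bool => decide ((BF.neg φ).sat (ext N a) v)) ρ) := by
        intro v hv
        have h2 := (hg v hv).comp (fun b => !b)
        have h3 : rs (fun a : Fin N → Bool => decide ((BF.neg φ).sat (ext N a) v)) ρ =
            fun x => !(rs (fun a : Fin N → Bool => decide (φ.sat (ext N a) v)) ρ x) := by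
          funext x
          simp [rs, BF.sat]
        rw [h3]
        exact h2
      rw [bi_neg (not_not.2 hg), bi_neg (not_not.2 hg')]
    · rw [bi_pos hg]
      exact bi_le _
  | and φ ψ ihφ ihψ =>
    set F : BF → (ℕ → ℕ) → (Fin N → Bool) → Bool := fun χ v a => decide (χ.sat (ext N a) v) with hF
    have hdep : (BF.and φ ψ).dep = max φ.dep ψ.dep + 1 := rfl
    set gφ : Restr (Fin N) → Prop := fun ρ => ∀ v ∈ Box w X, DTr t (rs (F φ v) ρ) with hgφ
    set gψ : Restr (Fin N) → Prop := fun ρ => ∀ v ∈ Box w X, DTr t (rs (F ψ v) ρ) with hgψ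
    have mono : ∀ (χ : BF) (ρ τ : Restr (Fin N)), (∀ v ∈ Box w X, DTr t (rs (F χ v) ρ)) →
        ∀ v ∈ Box w X, DTr t (rs (F χ v) (cmp ρ τ)) := by
      intro χ ρ τ h v hv
      rw [rs_cmp]
      exact (h v hv).rs
    have hr := round (I := Fin N) ht h0 h1 (p := q ^ (max φ.dep ψ.dep)) (pow_nonneg h0 _)
      (pow_le_one₀ h0 hq1) (fun ρ => gφ ρ ∧ gψ ρ) (boxF w X) (F (BF.and φ ψ)) false (by
        rintro ρ ⟨ha, hb⟩ v hv
        intro x hx
        have hx' : ¬ (φ.sat (ext N (ov ρ x)) v ∧ ψ.sat (ext N (ov ρ x)) v) := by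
          simpa [rs, hF, BF.sat] using hx
        by_cases hφ : φ.sat (ext N (ov ρ x)) v
        · have hψ : rs (F ψ v) ρ x = false := by
            have : ¬ ψ.sat (ext N (ov ρ x)) v := fun h => hx' ⟨hφ, h⟩
            simp [rs, hF, this]
          obtain ⟨A, hA, hy⟩ := (hb v (box_of_mem hv)).cert false x hψ
          refine ⟨A, hA, fun z hz => ?_⟩
          have h5 := hy z hz
          have h6 : ¬ ψ.sat (ext N (ov ρ z)) v := by simpa [rs, hF] using h5
          simp only [rs, hF, BF.sat, decide_eq_false_iff_not]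
          exact fun h => h6 h.2
        · have hφ' : rs (F φ v) ρ x = false := by
            simp [rs, hF, hφ]
          obtain ⟨A, hA, hy⟩ := (ha v (box_of_mem hv)).cert false x hφ'
          refine ⟨A, hA, fun z hz => ?_⟩
          have h5 := hy z hz
          have h6 : ¬ φ.sat (ext N (ov ρ z)) v := by simpa [rs, hF] using h5
          simp only [rs, hF, BF.sat, decide_eq_false_iff_not]
          exact fun h => h6 h.1)
    have e1 : Ex (wq (q ^ (max φ.dep ψ.dep)))
        (fun ρ : Restr (Fin N) => bi (¬ (gφ ρ ∧ gψ ρ))) ≤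
        φ.cnt w X * (12 * t * q) ^ (t + 1) + ψ.cnt w X * (12 * t * q) ^ (t + 1) := by
      have e2 : Ex (wq (q ^ (max φ.dep ψ.dep)))
          (fun ρ : Restr (Fin N) => bi (¬ (gφ ρ ∧ gψ ρ))) ≤
          Ex (wq (q ^ (max φ.dep ψ.dep)))
          (fun ρ : Restr (Fin N) => bi (¬ gφ ρ) + bi (¬ gψ ρ)) := by
        apply Ex_mono (wq_nonneg (pow_nonneg h0 _) (pow_le_one₀ h0 hq1))
        intro ρ
        by_cases ha : gφ ρ
        · by_cases hb : gψ ρ
          · rw [bi_neg (not_not.2 ⟨ha, hb⟩), bi_neg (not_not.2 ha), bi_neg (not_not.2 hb)]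
            norm_num
          · rw [bi_pos hb]
            have x1 := bi_le (¬ (gφ ρ ∧ gψ ρ))
            have x2 := bi_nonneg (¬ gφ ρ)
            linarith
        · rw [bi_pos ha]
          have x1 := bi_le (¬ (gφ ρ ∧ gψ ρ))
          have x2 := bi_nonneg (¬ gψ ρ)
          linarith
      refine e2.trans ?_
      rw [Ex_add]
      exact add_le_add
        ((pad h0 hq1 (le_max_left _ _) gφ (mono φ)).trans (ihφ w X))
        ((pad h0 hq1 (le_max_right _ _) gψ (mono ψ)).trans (ihψ w X))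
    rw [hdep, pow_succ]
    have e3 : (fun ρ : Restr (Fin N) => bi (¬ ∀ v ∈ Box w X,
        DTr t (rs (fun a : Fin N → Bool => decide ((BF.and φ ψ).sat (ext N a) v)) ρ))) =
        (fun ρ : Restr (Fin N) =>
        bi (¬ ∀ y ∈ boxF w X, DTr t (rs (F (BF.and φ ψ) y) ρ))) := by
      funext ρ
      exact congrArg bi (propext (not_congr ⟨fun h y hy => h y (box_of_mem hy),
        fun h y hy => h y (mem_boxF hy)⟩))
    rw [e3]
    refine hr.trans ?_
    have e4 : ((boxF w X).card : ℝ) ≤ ((X + 1) ^ w : ℕ) := by exact_mod_cast card_boxF w X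
    have hε0 : 0 ≤ (12 * (t : ℝ) * q) ^ (t + 1) := by positivity
    have e5 := mul_le_mul_of_nonneg_right e4 hε0
    have e6 : (((BF.and φ ψ).cnt w X : ℕ) : ℝ) = (φ.cnt w X : ℝ) + ψ.cnt w X +
        ((X + 1) ^ w : ℕ) := by
      simp only [BF.cnt]
      push_cast
      ring
    rw [e6]
    linarith
  | bex u φ ih =>
    set F : BF → (ℕ → ℕ) → (Fin N → Bool) → Bool := fun χ v a => decide (χ.sat (ext N a) v) with hF
    have hdep : (BF.bex u φ).dep = φ.dep + 1 := rfl
    have hr := round (I := Fin N) ht h0 h1 (p := q ^ φ.dep) (pow_nonneg h0 _)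
      (pow_le_one₀ h0 hq1) (fun ρ => ∀ v ∈ Box (w + 1) (nxt u X), DTr t (rs (F φ v) ρ))
      (boxF w X) (F (BF.bex u φ)) true (by
        intro ρ hg v hv x hx
        have hx' : ∃ y, y ≤ u.val v ∧ φ.sat (ext N (ov ρ x)) (cons y v) := by
          simpa [rs, hF, BF.sat] using hx
        obtain ⟨y, hy, hφ⟩ := hx'
        have hφ' : rs (F φ (cons y v)) ρ x = true := by
          simp [rs, hF, hφ]
        obtain ⟨A, hA, hy2⟩ := (hg _ (cons_mem u (box_of_mem hv) hy)).cert true x hφ'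
        refine ⟨A, hA, fun z hz => ?_⟩
        have h5 := hy2 z hz
        have h6 : φ.sat (ext N (ov ρ z)) (cons y v) := by simpa [rs, hF] using h5
        simp only [rs, hF, BF.sat, decide_eq_true_eq]
        exact ⟨y, hy, h6⟩)
    rw [hdep, pow_succ]
    have e3 : (fun ρ : Restr (Fin N) => bi (¬ ∀ v ∈ Box w X,
        DTr t (rs (fun a : Fin N → Bool => decide ((BF.bex u φ).sat (ext N a) v)) ρ))) =
        (fun ρ : Restr (Fin N) =>
        bi (¬ ∀ y ∈ boxF w X, DTr t (rs (F (BF.bex u φ) y) ρ))) := by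
      funext ρ
      exact congrArg bi (propext (not_congr ⟨fun h y hy => h y (box_of_mem hy),
        fun h y hy => h y (mem_boxF hy)⟩))
    rw [e3]
    refine hr.trans ?_
    have e4 : ((boxF w X).card : ℝ) ≤ ((X + 1) ^ w : ℕ) := by exact_mod_cast card_boxF w X
    have hε0 : 0 ≤ (12 * (t : ℝ) * q) ^ (t + 1) := by positivity
    have e5 := mul_le_mul_of_nonneg_right e4 hε0
    have e6 : (((BF.bex u φ).cnt w X : ℕ) : ℝ) = (φ.cnt (w + 1) (nxt u X) : ℝ) +
        ((X + 1) ^ w : ℕ) := by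
      simp only [BF.cnt]
      push_cast
      ring
    rw [e6]
    have e7 := ih (w + 1) (nxt u X)
    linarith

end Pool.Agent.H752.AG
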