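import Pool.Agent.H752.AG.Base

/-! Task B10: the codes are sparse. -/

namespace Pool.Agent.H752.AG

open Finset H568R2 Pool.Agent.H676 Pool.Agent.H620R2.Gauge

namespace B10

theorem log_small {δ : ℝ} (hδ : 0 < δ) :
    ∀ᶠ N : ℕ in Filter.atTop, ((Nat.log 2 N : ℝ) + 1) ≤ (N : ℝ) ^ δ := by
  have h1 := (isLittleO_log_rpow_atTop hδ).bound (show (0 : ℝ) < 1 / 3 by norm_num)
  have h2 := tendsto_natCast_atTop_atTop (R := ℝ) |>.eventually h1
  filter_upwards [h2, Filter.eventually_ge_atTop 3] with N h3 hN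
  have hN' : (3 : ℝ) ≤ N := by exact_mod_cast hN
  have h4 : (1 : ℝ) ≤ Real.log N := by
    rw [Real.le_log_iff_exp_le (by linarith)]
    exact (Real.exp_one_lt_d9.le.trans (by norm_num)).trans hN'
  have h5 : (Nat.log 2 N : ℝ) ≤ Real.logb 2 N := Real.natLog_le_logb N 2
  have h6 : Real.logb 2 N ≤ 2 * Real.log N := by
    unfold Real.logb
    rw [div_le_iff₀ (Real.log_pos (by norm_num))]
    have h7 : (1 : ℝ) / 2 ≤ Real.log 2 := by
      have := Real.log_two_gt_d9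
      linarith
    nlinarith
  rw [Real.norm_of_nonneg (by linarith), Real.norm_of_nonneg (Real.rpow_nonneg (by linarith) _)] at h3
  linarith

theorem code_props {K : ℕ → ℕ} {K₀ N : ℕ} (hK : ∀ e, K₀ + e ≤ K e) {e k : ℕ} {v : Fin k → ℕ}
    (h : codeN K e v < N) : e ≤ Nat.log 2 N ∧ (tup v + 2) ^ (2 * K₀) < N := by
  have h1 : (tup v + 2) ^ K e * (tup v + 2) ^ K e ≤ codeN K e v := by
    unfold codeN pr
    nlinarith [Nat.zero_le ((tup v + 2) ^ K e), Nat.zero_le e]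
  have h2 : (tup v + 2) ^ K e * (tup v + 2) ^ K e < N := lt_of_le_of_lt h1 h
  have h3 : 1 ≤ (tup v + 2) ^ K e := Nat.one_le_pow _ _ (by omega)
  constructor
  · refine Nat.le_log_of_pow_le (by norm_num) ?_
    calc 2 ^ e ≤ 2 ^ K e := Nat.pow_le_pow_right (by norm_num) (by have := hK e; omega)
      _ ≤ (tup v + 2) ^ K e := Nat.pow_le_pow_left (by omega) _
      _ ≤ (tup v + 2) ^ K e * (tup v + 2) ^ K e := Nat.le_mul_of_pos_right _ h3
      _ ≤ N := h2.le
  · calc (tup v + 2) ^ (2 * K₀) ≤ (tup v + 2) ^ (K e + K e) :=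
          Nat.pow_le_pow_right (by omega) (by have := hK e; omega)
      _ = (tup v + 2) ^ K e * (tup v + 2) ^ K e := pow_add _ _ _
      _ < N := h2

end B10

open Classical in
theorem sparseN (k : ℕ → ℕ) (ε : ℝ) (hε : 0 < ε) : ∃ K₀ : ℕ, ∀ K : ℕ → ℕ, (∀ e, K₀ + e ≤ K e) →
    ∀ᶠ N : ℕ in Filter.atTop, (((Finset.range N).filter (fun i => ∃ e, ∃ v : Fin (k e) → ℕ,
      i = codeN K e v)).card : ℝ) ≤ (N : ℝ) ^ ε := by
  obtain ⟨m, hm⟩ := exists_nat_gt (1 / ε)
  have hm0 : (0 : ℝ) < m := lt_trans (by positivity) hm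
  have hm1 : 1 / (2 * (m : ℝ)) ≤ ε / 2 := by
    rw [div_le_div_iff₀ (by positivity) (by norm_num)]
    rw [div_lt_iff₀ hε] at hm
    nlinarith
  refine ⟨m, fun K hK => ?_⟩
  filter_upwards [B10.log_small (half_pos hε), Filter.eventually_ge_atTop 1] with N hN hN1
  have hNr : (1 : ℝ) ≤ N := by exact_mod_cast hN1
  set T : ℕ := ⌊(N : ℝ) ^ (1 / (2 * (m : ℝ)))⌋₊ with hT
  have hsub : (Finset.range N).filter (fun i => ∃ e, ∃ v : Fin (k e) → ℕ, i = codeN K e v) ⊆
      ((Finset.range (Nat.log 2 N + 1)) ×ˢ (Finset.range T)).image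
        (fun p => pr p.1 ((p.2 + 2) ^ K p.1)) := by
    intro i hi
    obtain ⟨hi1, e, v, rfl⟩ := Finset.mem_filter.mp hi
    obtain ⟨h1, h2⟩ := B10.code_props hK (Finset.mem_range.mp hi1)
    refine Finset.mem_image.mpr ⟨(e, tup v), Finset.mem_product.mpr
      ⟨Finset.mem_range.mpr (Nat.lt_succ_of_le h1), Finset.mem_range.mpr ?_⟩, rfl⟩
    have h3 : ((tup v + 2 : ℕ) : ℝ) ≤ (N : ℝ) ^ (1 / (2 * (m : ℝ))) := by
      rw [one_div, Real.le_rpow_inv_iff_of_pos (by positivity) (by positivity) (by positivity)]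
      have h4 : (((tup v + 2) ^ (2 * m) : ℕ) : ℝ) ≤ N := by exact_mod_cast h2.le
      rw [Nat.cast_pow] at h4
      have h5 : (((tup v + 2 : ℕ) : ℝ)) ^ (2 * (m : ℝ)) = (((tup v + 2 : ℕ) : ℝ)) ^ (2 * m) := by
        rw [← Real.rpow_natCast]
        push_cast
        rfl
      rw [h5]
      exact h4
    have h6 := Nat.le_floor h3
    show tup v < T
    omega
  have hcard : ((Finset.range N).filter (fun i => ∃ e, ∃ v : Fin (k e) → ℕ,
      i = codeN K e v)).card ≤ (Nat.log 2 N + 1) * T := by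
    refine (Finset.card_le_card hsub).trans (Finset.card_image_le.trans ?_)
    rw [Finset.card_product, Finset.card_range, Finset.card_range]
  have hT2 : (T : ℝ) ≤ (N : ℝ) ^ (ε / 2) :=
    (Nat.floor_le (Real.rpow_nonneg (by linarith) _)).trans
      (Real.rpow_le_rpow_of_exponent_le hNr hm1)
  calc (((Finset.range N).filter (fun i => ∃ e, ∃ v : Fin (k e) → ℕ, i = codeN K e v)).card : ℝ)
      ≤ (((Nat.log 2 N + 1) * T : ℕ) : ℝ) := by exact_mod_cast hcard
    _ = ((Nat.log 2 N : ℝ) + 1) * T := by push_cast; rfl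
    _ ≤ (N : ℝ) ^ (ε / 2) * (N : ℝ) ^ (ε / 2) :=
        mul_le_mul hN hT2 (Nat.cast_nonneg _) (Real.rpow_nonneg (by linarith) _)
    _ = (N : ℝ) ^ ε := by
        rw [← Real.rpow_add (by linarith), add_halves]

end Pool.Agent.H752.AG
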