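import Pool.Agent.H752.AG.Base

/-!
Task B11: a countable local family for `E²` relative to oracles.
-/

set_option autoImplicit false

namespace Pool.Agent.H752.AG

namespace B11

/-- untyped programs; they map sequences to sequences -/
inductive Tr : Type
  | zero
  | succ
  | proj (i : ℕ)
  | mul
  | orc
  | comp (g h : Tr)
  | nil
  | cns (p q : Tr)
  | lrec (g h b : Tr)

deriving instance Countable for Tr

/-- truncated limited recursion -/
def rcs (g : (ℕ → ℕ) → ℕ) (h : (ℕ → ℕ) → ℕ) (b : (ℕ → ℕ) → ℕ) : ℕ → (ℕ → ℕ) → ℕ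
  | 0, w => min (g w) (b (cons 0 w))
  | y + 1, w => min (h (cons (rcs g h b y w) (cons y w))) (b (cons (y + 1) w))

/-- the denotation of a program -/
def Tr.ev (A : ℕ → Bool) : Tr → (ℕ → ℕ) → ℕ → ℕ
  | .zero, _ => fun _ => 0
  | .succ, v => fun _ => v 0 + 1
  | .proj i, v => fun _ => v i
  | .mul, v => fun _ => (v 0 + 1) * (v 1 + 1)
  | .orc, v => fun _ => (A (v 0)).toNat
  | .comp g h, v => g.ev A (h.ev A v)
  | .nil, _ => fun _ => 0
  | .cns p q, v => cons (p.ev A v 0) (q.ev A v)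
  | .lrec g h b, v => fun _ => rcs (fun w => g.ev A w 0) (fun w => h.ev A w 0)
      (fun w => b.ev A w 0) (v 0) (fun i => v (i + 1))

theorem cons_le {x X : ℕ} {v : ℕ → ℕ} (hx : x ≤ X) (hv : ∀ i, v i ≤ X) (i : ℕ) :
    cons x v i ≤ X := by
  cases i with
  | zero => exact hx
  | succ i => exact hv i

/-- `t` is local with the exponent `d` -/
def Loc (t : Tr) (d : ℕ) : Prop :=
  ∀ (A A' : ℕ → Bool) (v : ℕ → ℕ) (X : ℕ), (∀ i, v i ≤ X) →
    (∀ z < (X + 2) ^ d, A z = A' z) →
    t.ev A v = t.ev A' v ∧ ∀ i, t.ev A v i + 2 ≤ (X + 2) ^ d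

theorem Loc.mono {t : Tr} {d d' : ℕ} (h : Loc t d) (hd : d ≤ d') : Loc t d' := by
  intro A A' v X hv hA
  have hle : (X + 2) ^ d ≤ (X + 2) ^ d' := Nat.pow_le_pow_right (by omega) hd
  obtain ⟨h1, h2⟩ := h A A' v X hv (fun z hz => hA z (lt_of_lt_of_le hz hle))
  exact ⟨h1, fun i => (h2 i).trans hle⟩

theorem loc_const {t : Tr} (h : ∀ (A A' : ℕ → Bool) (v : ℕ → ℕ) (X : ℕ), (∀ i, v i ≤ X) →
    (∀ z < (X + 2) ^ 2, A z = A' z) → t.ev A v = t.ev A' v ∧
      ∀ i, t.ev A v i ≤ (X + 1) * (X + 1)) : Loc t 2 := by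
  intro A A' v X hv hA
  obtain ⟨h1, h2⟩ := h A A' v X hv hA
  refine ⟨h1, fun i => ?_⟩
  have := h2 i
  nlinarith

theorem exists_loc (t : Tr) : ∃ d, Loc t d := by
  induction t with
  | zero =>
    refine ⟨2, loc_const ?_⟩
    intro A A' v X hv hA
    exact ⟨rfl, fun i => Nat.zero_le _⟩
  | succ =>
    refine ⟨2, loc_const ?_⟩
    intro A A' v X hv hA
    refine ⟨rfl, fun i => ?_⟩
    have := hv 0
    show v 0 + 1 ≤ _
    nlinarith
  | proj j =>
    refine ⟨2, loc_const ?_⟩
    intro A A' v X hv hA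
    refine ⟨rfl, fun i => ?_⟩
    have := hv j
    show v j ≤ _
    nlinarith
  | mul =>
    refine ⟨2, loc_const ?_⟩
    intro A A' v X hv hA
    refine ⟨rfl, fun i => ?_⟩
    exact Nat.mul_le_mul (Nat.succ_le_succ (hv 0)) (Nat.succ_le_succ (hv 1))
  | orc =>
    refine ⟨2, loc_const ?_⟩
    intro A A' v X hv hA
    have h0 : A (v 0) = A' (v 0) := by
      apply hA
      have := hv 0
      nlinarith
    refine ⟨?_, fun i => ?_⟩
    · funext i
      show (A (v 0)).toNat = (A' (v 0)).toNat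
      rw [h0]
    · have : (A (v 0)).toNat ≤ 1 := Bool.toNat_le _
      show (A (v 0)).toNat ≤ _
      nlinarith
  | comp g h ihg ihh =>
    obtain ⟨dg, hg⟩ := ihg
    obtain ⟨dh, hh⟩ := ihh
    refine ⟨dh + dh * dg, ?_⟩
    intro A A' v X hv hA
    have e1 : (X + 2) ^ dh ≤ (X + 2) ^ (dh + dh * dg) :=
      Nat.pow_le_pow_right (by omega) (by omega)
    have e2 : ((X + 2) ^ dh) ^ dg ≤ (X + 2) ^ (dh + dh * dg) := by
      rw [← pow_mul]
      exact Nat.pow_le_pow_right (by omega) (by omega)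
    obtain ⟨h1, h2⟩ := hh A A' v X hv (fun z hz => hA z (lt_of_lt_of_le hz e1))
    have hY : (X + 2) ^ dh - 2 + 2 = (X + 2) ^ dh := by
      have := h2 0
      omega
    obtain ⟨h3, h4⟩ := hg A A' (h.ev A v) ((X + 2) ^ dh - 2) (fun i => by have := h2 i; omega)
      (fun z hz => by
        rw [hY] at hz
        exact hA z (lt_of_lt_of_le hz e2))
    rw [hY] at h4
    refine ⟨?_, fun i => (h4 i).trans e2⟩
    show g.ev A (h.ev A v) = g.ev A' (h.ev A' v)
    rw [← h1, h3]
  | nil =>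
    refine ⟨2, loc_const ?_⟩
    intro A A' v X hv hA
    exact ⟨rfl, fun i => Nat.zero_le _⟩
  | cns p q ihp ihq =>
    obtain ⟨dp, hp⟩ := ihp
    obtain ⟨dq, hq⟩ := ihq
    refine ⟨dp + dq, ?_⟩
    intro A A' v X hv hA
    obtain ⟨h1, h2⟩ := hp.mono (Nat.le_add_right dp dq) A A' v X hv hA
    obtain ⟨h3, h4⟩ := hq.mono (Nat.le_add_left dq dp) A A' v X hv hA
    refine ⟨?_, fun i => ?_⟩
    · show cons (p.ev A v 0) (q.ev A v) = cons (p.ev A' v 0) (q.ev A' v)
      rw [h1, h3]
    · show cons (p.ev A v 0) (q.ev A v) i + 2 ≤ _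
      cases i with
      | zero => exact h2 0
      | succ i => exact h4 i
  | lrec g h b ihg ihh ihb =>
    obtain ⟨dg, hg⟩ := ihg
    obtain ⟨dh, hh⟩ := ihh
    obtain ⟨db, hb⟩ := ihb
    refine ⟨dg + db + (db + 1) * dh, ?_⟩
    intro A A' v X hv hA
    have e1 : (X + 2) ^ dg ≤ (X + 2) ^ (dg + db + (db + 1) * dh) :=
      Nat.pow_le_pow_right (by omega) (by omega)
    have e2 : (X + 2) ^ db ≤ (X + 2) ^ (dg + db + (db + 1) * dh) :=
      Nat.pow_le_pow_right (by omega) (by omega)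
    have e3 : ((X + 2) ^ (db + 1)) ^ dh ≤ (X + 2) ^ (dg + db + (db + 1) * dh) := by
      rw [← pow_mul]
      exact Nat.pow_le_pow_right (by omega) (by omega)
    have e4 : (X + 2) ^ db ≤ (X + 2) ^ (db + 1) := Nat.pow_le_pow_right (by omega) (by omega)
    have e5 : X + 2 ≤ (X + 2) ^ (db + 1) := Nat.le_self_pow (by omega) _
    have hZ : (X + 2) ^ (db + 1) - 2 + 2 = (X + 2) ^ (db + 1) := by omega
    have hw : ∀ i, (fun i => v (i + 1)) i ≤ X := fun i => hv (i + 1)
    -- the bound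
    have kb : ∀ y ≤ X, b.ev A (cons y (fun i => v (i + 1))) =
        b.ev A' (cons y (fun i => v (i + 1))) ∧
        ∀ i, b.ev A (cons y (fun i => v (i + 1))) i + 2 ≤ (X + 2) ^ db := by
      intro y hy
      exact hb A A' _ X (cons_le hy hw) (fun z hz => hA z (lt_of_lt_of_le hz e2))
    have main : ∀ y ≤ X,
        rcs (fun w => g.ev A w 0) (fun w => h.ev A w 0) (fun w => b.ev A w 0) y
          (fun i => v (i + 1)) =
        rcs (fun w => g.ev A' w 0) (fun w => h.ev A' w 0) (fun w => b.ev A' w 0) y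
          (fun i => v (i + 1)) ∧
        rcs (fun w => g.ev A w 0) (fun w => h.ev A w 0) (fun w => b.ev A w 0) y
          (fun i => v (i + 1)) + 2 ≤ (X + 2) ^ db := by
      intro y
      induction y with
      | zero =>
        intro hy
        obtain ⟨h1, h2⟩ := kb 0 hy
        obtain ⟨h3, h4⟩ := hg A A' (fun i => v (i + 1)) X hw
          (fun z hz => hA z (lt_of_lt_of_le hz e1))
        refine ⟨?_, ?_⟩
        · simp only [rcs]
          rw [h1, h3]
        · simp only [rcs]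
          have := h2 0
          have := Nat.min_le_right (g.ev A (fun i => v (i + 1)) 0)
            (b.ev A (cons 0 fun i => v (i + 1)) 0)
          omega
      | succ y ih =>
        intro hy
        obtain ⟨i1, i2⟩ := ih (by omega)
        obtain ⟨h1, h2⟩ := kb (y + 1) hy
        have hc : ∀ i, cons (rcs (fun w => g.ev A w 0) (fun w => h.ev A w 0)
            (fun w => b.ev A w 0) y (fun i => v (i + 1))) (cons y (fun i => v (i + 1))) i ≤
            (X + 2) ^ (db + 1) - 2 := by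
          apply cons_le
          · omega
          · apply cons_le
            · omega
            · intro i
              have : v (i + 1) ≤ X := hw i
              show v (i + 1) ≤ _
              omega
        obtain ⟨h3, h4⟩ := hh A A' _ ((X + 2) ^ (db + 1) - 2) hc (fun z hz => by
          rw [hZ] at hz
          exact hA z (lt_of_lt_of_le hz e3))
        refine ⟨?_, ?_⟩
        · simp only [rcs]
          rw [h1, h3, i1]
        · simp only [rcs]
          have := h2 0
          have := Nat.min_le_right (h.ev A (cons (rcs (fun w => g.ev A w 0)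
            (fun w => h.ev A w 0) (fun w => b.ev A w 0) y (fun i => v (i + 1)))
              (cons y (fun i => v (i + 1)))) 0) (b.ev A (cons (y + 1) fun i => v (i + 1)) 0)
          omega
    obtain ⟨m1, m2⟩ := main (v 0) (hv 0)
    refine ⟨?_, fun i => ?_⟩
    · funext i
      exact m1
    · exact m2.trans e2

/-! ### tuples -/

theorem asg_vecCons {n : ℕ} (x : ℕ) (w : Fin n → ℕ) :
    asg (Matrix.vecCons x w) = cons x (asg w) := by
  funext i
  cases i with
  | zero => simp [asg, cons]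
  | succ i =>
    simp only [asg, cons]
    by_cases h : i < n
    · rw [dif_pos (by omega : i + 1 < n + 1), dif_pos h]
      rfl
    · rw [dif_neg (by omega : ¬ i + 1 < n + 1), dif_neg h]

theorem exists_vec {m : ℕ} (hs : Fin m → Tr) :
    ∃ T : Tr, ∀ (A : ℕ → Bool) (v : ℕ → ℕ), T.ev A v = asg (fun i => (hs i).ev A v 0) := by
  induction m with
  | zero =>
    refine ⟨.nil, fun A v => ?_⟩
    funext i
    simp [Tr.ev, asg]
  | succ m ih =>
    obtain ⟨T, hT⟩ := ih (fun i => hs i.succ)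
    refine ⟨.cns (hs 0) T, fun A v => ?_⟩
    have h1 : (fun i => (hs i).ev A v 0) =
        Matrix.vecCons ((hs 0).ev A v 0) (fun i : Fin m => (hs i.succ).ev A v 0) := by
      funext i
      refine Fin.cases ?_ (fun i => ?_) i
      · rfl
      · rfl
    rw [h1, asg_vecCons, ← hT A v]
    rfl

theorem vec_eta {n : ℕ} (v : Fin (n + 1) → ℕ) :
    v = Matrix.vecCons (v 0) (fun i => v i.succ) := by
  funext i
  refine Fin.cases ?_ (fun i => ?_) i
  · rfl
  · rfl

theorem exists_prog {A : ℕ → Bool} {k : ℕ} {f : (Fin k → ℕ) → ℕ} (h : E2 A k f) :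
    ∃ t : Tr, ∀ v : Fin k → ℕ, t.ev A (asg v) 0 = f v := by
  induction h with
  | zero k => exact ⟨.zero, fun v => rfl⟩
  | succ =>
    refine ⟨.succ, fun v => ?_⟩
    simp [Tr.ev, asg]
  | proj k i =>
    refine ⟨.proj i, fun v => ?_⟩
    simp [Tr.ev, asg]
  | mul =>
    refine ⟨.mul, fun v => ?_⟩
    simp [Tr.ev, asg]
  | orc =>
    refine ⟨.orc, fun v => ?_⟩
    simp [Tr.ev, asg]
  | comp n m g hs _ _ ihg ihh =>
    obtain ⟨tg, htg⟩ := ihg
    choose th hth using ihh
    obtain ⟨T, hT⟩ := exists_vec th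
    refine ⟨.comp tg T, fun v => ?_⟩
    show tg.ev A (T.ev A (asg v)) 0 = _
    rw [hT, htg]
    congr 1
    funext i
    exact hth i v
  | lrec n g h b F _ _ _ hFb hF0 hFs ihg ihh ihb =>
    obtain ⟨tg, htg⟩ := ihg
    obtain ⟨th, hth⟩ := ihh
    obtain ⟨tb, htb⟩ := ihb
    refine ⟨.lrec tg th tb, fun v => ?_⟩
    have main : ∀ (y : ℕ) (w : Fin n → ℕ),
        rcs (fun u => tg.ev A u 0) (fun u => th.ev A u 0) (fun u => tb.ev A u 0) y (asg w) =
          F (Matrix.vecCons y w) := by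
      intro y w
      induction y with
      | zero =>
        simp only [rcs]
        rw [htg, ← asg_vecCons, htb, hF0 w, ← hF0 w]
        exact min_eq_left (hFb _)
      | succ y ih =>
        simp only [rcs]
        rw [ih, ← asg_vecCons, ← asg_vecCons, ← asg_vecCons, hth, htb, ← hFs]
        exact min_eq_left (hFb _)
    have h1 : asg v = cons (v 0) (asg fun i => v i.succ) := by
      rw [← asg_vecCons, ← vec_eta]
    rw [h1]
    show rcs (fun u => tg.ev A u 0) (fun u => th.ev A u 0) (fun u => tb.ev A u 0) (v 0)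
      (asg fun i => v i.succ) = F v
    rw [main, ← vec_eta]

theorem le_tup {k : ℕ} (v : Fin k → ℕ) (i : Fin k) : v i ≤ tup v := by
  induction k with
  | zero => exact i.elim0
  | succ k ih =>
    have h1 : v 0 ≤ tup v := by
      show v 0 ≤ (v 0 + tup (fun i => v i.succ)) * (v 0 + tup (fun i => v i.succ)) +
        tup (fun i => v i.succ)
      have := Nat.le_mul_self (v 0 + tup (fun i => v i.succ))
      omega
    have h2 : tup (fun i => v i.succ) ≤ tup v := by
      show tup (fun i => v i.succ) ≤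
        (v 0 + tup (fun i => v i.succ)) * (v 0 + tup (fun i => v i.succ)) +
        tup (fun i => v i.succ)
      omega
    refine Fin.cases h1 (fun i => ?_) i
    exact (ih (fun i => v i.succ) i).trans h2

theorem asg_le_tup {k : ℕ} (v : Fin k → ℕ) (i : ℕ) : asg v i ≤ tup v := by
  unfold asg
  split_ifs with h
  · exact le_tup v ⟨i, h⟩
  · exact Nat.zero_le _

theorem transport {n : ℕ} {t : Tr} (A : ℕ → Bool) (p : ℕ × Tr) (hp : p = (n, t))
    (h : p.1 = n) (v : Fin n → ℕ) :
    p.2.ev A (asg (h ▸ v : Fin p.1 → ℕ)) 0 = 0 ↔ t.ev A (asg v) 0 = 0 := by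
  subst hp
  rfl

end B11

theorem E2_fam : ∃ (k : ℕ → ℕ) (V : (e : ℕ) → (ℕ → Bool) → (Fin (k e) → ℕ) → Prop) (d : ℕ → ℕ),
    (∀ e A A' (v : Fin (k e) → ℕ), (∀ z < (tup v + 2) ^ d e, A z = A' z) →
      (V e A v ↔ V e A' v)) ∧
    ∀ (A : ℕ → Bool) (n : ℕ) (R : (Fin n → ℕ) → Prop), IsE2s A R →
      ∃ e, ∃ h : k e = n, ∀ v : Fin n → ℕ, R v ↔ V e A (h ▸ v) := by
  have : Nonempty (ℕ × B11.Tr) := ⟨(0, .zero)⟩
  obtain ⟨f, hf⟩ := exists_surjective_nat (ℕ × B11.Tr)
  refine ⟨fun e => (f e).1, fun e A v => (f e).2.ev A (asg v) 0 = 0,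
    fun e => (B11.exists_loc (f e).2).choose, ?_, ?_⟩
  · intro e A A' v hA
    have h := (B11.exists_loc (f e).2).choose_spec A A' (asg v) (tup v)
      (B11.asg_le_tup v) hA
    show (f e).2.ev A (asg v) 0 = 0 ↔ (f e).2.ev A' (asg v) 0 = 0
    rw [h.1]
  · intro A n R hR
    obtain ⟨g, hg, hgR⟩ := hR
    obtain ⟨t, ht⟩ := B11.exists_prog hg
    obtain ⟨e, he⟩ := hf (n, t)
    have hk : (f e).1 = n := by rw [he]
    refine ⟨e, hk, fun v => ?_⟩
    have h1 := B11.transport A (f e) he hk v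
    show R v ↔ (f e).2.ev A (asg (hk ▸ v : Fin (f e).1 → ℕ)) 0 = 0
    rw [h1, ht]
    constructor
    · exact (hgR v).1
    · intro h0
      by_contra hR'
      have := (hgR v).2 hR'
      omega

end Pool.Agent.H752.AG
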