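import Pool.Agent.H752.AG.Defs

/-!
# Basic functions in `E²` relative to an oracle
-/

namespace Pool.Agent.H752.AG

namespace E2

variable {A : ℕ → Bool}

theorem of_eq {k : ℕ} {f g : (Fin k → ℕ) → ℕ} (hf : E2 A k f) (h : ∀ v, g v = f v) :
    E2 A k g := by
  have : g = f := funext h
  rw [this]; exact hf

/-- Composition with a function of one argument. -/
theorem comp1 {n : ℕ} {g : ℕ → ℕ} {f : (Fin n → ℕ) → ℕ} (hg : E2 A 1 (fun v => g (v 0)))
    (hf : E2 A n f) : E2 A n (fun v => g (f v)) :=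
  E2.comp n 1 (fun v => g (v 0)) (fun _ => f) hg (fun _ => hf)

/-- Composition with a function of two arguments. -/
theorem comp2 {n : ℕ} {g : ℕ → ℕ → ℕ} {f₁ f₂ : (Fin n → ℕ) → ℕ}
    (hg : E2 A 2 (fun v => g (v 0) (v 1))) (h₁ : E2 A n f₁) (h₂ : E2 A n f₂) :
    E2 A n (fun v => g (f₁ v) (f₂ v)) := by
  have h := E2.comp n 2 (fun v => g (v 0) (v 1)) (fun i => if i = 0 then f₁ else f₂) hg
    (fun i => by
      fin_cases i
      · exact h₁
      · exact h₂)
  exact of_eq h (fun v => rfl)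

/-- Composition with a function of three arguments. -/
theorem comp3 {n : ℕ} {g : ℕ → ℕ → ℕ → ℕ} {f₁ f₂ f₃ : (Fin n → ℕ) → ℕ}
    (hg : E2 A 3 (fun v => g (v 0) (v 1) (v 2))) (h₁ : E2 A n f₁) (h₂ : E2 A n f₂)
    (h₃ : E2 A n f₃) : E2 A n (fun v => g (f₁ v) (f₂ v) (f₃ v)) := by
  have h := E2.comp n 3 (fun v => g (v 0) (v 1) (v 2))
    (fun i => if i = 0 then f₁ else if i = 1 then f₂ else f₃) hg
    (fun i => by
      fin_cases i
      · exact h₁
      · exact h₂
      · exact h₃)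
  exact of_eq h (fun v => rfl)

/-- Substitution of variables. -/
theorem subst {n m : ℕ} {f : (Fin m → ℕ) → ℕ} (s : Fin m → Fin n) (hf : E2 A m f) :
    E2 A n (fun v => f (fun i => v (s i))) :=
  E2.comp n m f (fun i v => v (s i)) hf (fun i => E2.proj n (s i))

/-- Substitution of a function for the first variable. -/
theorem subst_cons {n : ℕ} {f : (Fin (n + 1) → ℕ) → ℕ} {u : (Fin n → ℕ) → ℕ}
    (hf : E2 A (n + 1) f) (hu : E2 A n u) : E2 A n (fun v => f (Matrix.vecCons (u v) v)) := by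
  have h := E2.comp n (n + 1) f (fun i => Fin.cases u (fun j v => v j) i) hf
    (fun i => by
      refine Fin.cases ?_ (fun j => ?_) i
      · exact hu
      · exact E2.proj n j)
  refine of_eq h (fun v => ?_)
  congr 1
  funext i
  refine Fin.cases ?_ (fun j => ?_) i
  · rfl
  · rfl

theorem succ' {n : ℕ} {f : (Fin n → ℕ) → ℕ} (hf : E2 A n f) : E2 A n (fun v => f v + 1) :=
  comp1 (g := fun x => x + 1) E2.succ hf

theorem const (n c : ℕ) : E2 A n (fun _ => c) := by
  induction c with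
  | zero => exact E2.zero n
  | succ c ih => exact succ' ih

theorem mulSucc {n : ℕ} {f g : (Fin n → ℕ) → ℕ} (hf : E2 A n f) (hg : E2 A n g) :
    E2 A n (fun v => (f v + 1) * (g v + 1)) :=
  comp2 (g := fun x y => (x + 1) * (y + 1)) E2.mul hf hg

/-- Limited recursion without parameters. -/
theorem rec0 {g : ℕ} {h : ℕ → ℕ → ℕ} {F : ℕ → ℕ} {b : ℕ → ℕ}
    (hh : E2 A 2 (fun v => h (v 0) (v 1))) (hb : E2 A 1 (fun v => b (v 0)))
    (hF : ∀ y, F y ≤ b y) (h0 : F 0 = g) (hs : ∀ y, F (y + 1) = h (F y) y) :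
    E2 A 1 (fun v => F (v 0)) :=
  E2.lrec 0 (fun _ => g) (fun v => h (v 0) (v 1)) (fun v => b (v 0)) (fun v => F (v 0))
    (const 0 g) hh hb (fun _ => hF _) (fun _ => h0) (fun _ y => hs y)

/-- Limited recursion with one parameter. -/
theorem rec1 {g : ℕ → ℕ} {h : ℕ → ℕ → ℕ → ℕ} {F : ℕ → ℕ → ℕ} {b : ℕ → ℕ → ℕ}
    (hg : E2 A 1 (fun v => g (v 0)))
    (hh : E2 A 3 (fun v => h (v 0) (v 1) (v 2))) (hb : E2 A 2 (fun v => b (v 0) (v 1)))
    (hF : ∀ y x, F y x ≤ b y x) (h0 : ∀ x, F 0 x = g x)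
    (hs : ∀ y x, F (y + 1) x = h (F y x) y x) :
    E2 A 2 (fun v => F (v 0) (v 1)) :=
  E2.lrec 1 (fun v => g (v 0)) (fun v => h (v 0) (v 1) (v 2)) (fun v => b (v 0) (v 1))
    (fun v => F (v 0) (v 1)) hg hh hb (fun _ => hF _ _) (fun _ => h0 _) (fun _ y => hs y _)

theorem pred_base : E2 A 1 (fun v => v 0 - 1) :=
  rec0 (g := 0) (h := fun _ y => y) (F := fun y => y - 1) (b := fun y => y) (E2.proj 2 1)
    (E2.proj 1 0) (fun _ => Nat.sub_le _ _) rfl (fun _ => rfl)

theorem pred' {n : ℕ} {f : (Fin n → ℕ) → ℕ} (hf : E2 A n f) : E2 A n (fun v => f v - 1) :=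
  comp1 (g := fun x => x - 1) pred_base hf

theorem add_base : E2 A 2 (fun v => v 0 + v 1) :=
  rec1 (g := fun x => x) (h := fun r _ _ => r + 1) (F := fun y x => y + x)
    (b := fun y x => (y + 1) * (x + 1)) (E2.proj 1 0) (succ' (E2.proj 3 0))
    (mulSucc (E2.proj 2 0) (E2.proj 2 1)) (fun y x => by nlinarith [Nat.zero_le (y * x)])
    (fun x => by simp) (fun y x => by ring)

theorem add' {n : ℕ} {f g : (Fin n → ℕ) → ℕ} (hf : E2 A n f) (hg : E2 A n g) :
    E2 A n (fun v => f v + g v) :=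
  comp2 (g := fun x y => x + y) add_base hf hg

theorem sub_base : E2 A 2 (fun v => v 1 - v 0) :=
  rec1 (g := fun x => x) (h := fun r _ _ => r - 1) (F := fun y x => x - y)
    (b := fun _ x => x) (E2.proj 1 0) (pred' (E2.proj 3 0))
    (E2.proj 2 1) (fun y x => Nat.sub_le _ _)
    (fun x => rfl) (fun y x => by omega)

theorem sub' {n : ℕ} {f g : (Fin n → ℕ) → ℕ} (hf : E2 A n f) (hg : E2 A n g) :
    E2 A n (fun v => f v - g v) :=
  comp2 (g := fun x y => y - x) sub_base hg hf

theorem mul' {n : ℕ} {f g : (Fin n → ℕ) → ℕ} (hf : E2 A n f) (hg : E2 A n g) :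
    E2 A n (fun v => f v * g v) := by
  refine of_eq (sub' (mulSucc hf hg) (succ' (add' hf hg))) (fun v => ?_)
  have : (f v + 1) * (g v + 1) = f v * g v + (f v + g v + 1) := by ring
  rw [this, Nat.add_sub_cancel]

/-- The characteristic function of the oracle. -/
theorem orc' {n : ℕ} {f : (Fin n → ℕ) → ℕ} (hf : E2 A n f) :
    E2 A n (fun v => (A (f v)).toNat) :=
  comp1 (g := fun x => (A x).toNat) E2.orc hf

/-- The sign. -/
theorem sg' {n : ℕ} {f : (Fin n → ℕ) → ℕ} (hf : E2 A n f) :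
    E2 A n (fun v => if f v = 0 then 0 else 1) := by
  refine of_eq (sub' (const n 1) (sub' (const n 1) hf)) (fun v => ?_)
  split_ifs with h <;> omega

/-- The negation. -/
theorem not' {n : ℕ} {f : (Fin n → ℕ) → ℕ} (hf : E2 A n f) :
    E2 A n (fun v => if f v = 0 then 1 else 0) := by
  refine of_eq (sub' (const n 1) hf) (fun v => ?_)
  split_ifs with h <;> omega

open Classical in
/-- Bounded existential quantification: if the characteristic function of `P` (with the value `0`
for true) is in `E²`, then so is the one of `∃ x < y, P x v` as a function of `y, v`. -/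
theorem bexLt {n : ℕ} {P : (Fin (n + 1) → ℕ) → Prop}
    (hP : E2 A (n + 1) (fun v => if P v then 0 else 1)) :
    E2 A (n + 1) (fun v => if ∃ x < v 0, P (Matrix.vecCons x (Matrix.vecTail v)) then 0 else 1) := by
  refine E2.lrec n (fun _ => 1)
    (fun v => v 0 * (if P (Matrix.vecTail v) then 0 else 1)) (fun _ => 1)
    (fun v => if ∃ x < v 0, P (Matrix.vecCons x (Matrix.vecTail v)) then 0 else 1)
    (const n 1) ?_ (const _ 1) ?_ ?_ ?_
  · refine mul' (E2.proj _ 0) ?_
    exact subst (f := fun v => if P v then 0 else 1) (fun i : Fin (n + 1) => i.succ) hP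
  · intro v; split_ifs <;> simp
  · intro v
    rw [if_neg]
    rintro ⟨x, hx, -⟩
    simp at hx
  · intro v y
    simp only [Matrix.cons_val_zero, Matrix.tail_cons]
    by_cases h1 : ∃ x < y, P (Matrix.vecCons x v)
    · rw [if_pos h1, zero_mul, if_pos]
      obtain ⟨x, hx, hp⟩ := h1
      exact ⟨x, by omega, hp⟩
    · rw [if_neg h1, one_mul]
      by_cases h2 : P (Matrix.vecCons y v)
      · rw [if_pos h2, if_pos]
        exact ⟨y, by omega, h2⟩
      · rw [if_neg h2, if_neg]
        rintro ⟨x, hx, hp⟩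
        rcases Nat.lt_succ_iff_lt_or_eq.1 hx with h | h
        · exact h1 ⟨x, h, hp⟩
        · subst h; exact h2 hp

open Classical in
/-- Bounded existential quantification with a bound in `E²`. -/
theorem bexLe {n : ℕ} {P : (Fin (n + 1) → ℕ) → Prop} {u : (Fin n → ℕ) → ℕ}
    (hP : E2 A (n + 1) (fun v => if P v then 0 else 1)) (hu : E2 A n u) :
    E2 A n (fun v => if ∃ x, x ≤ u v ∧ P (Matrix.vecCons x v) then 0 else 1) := by
  refine of_eq (subst_cons (bexLt hP) (succ' hu)) (fun v => ?_)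
  simp only [Matrix.cons_val_zero, Matrix.tail_cons, Nat.lt_succ_iff]

end E2

/-- The values of terms are in `E²`. -/
theorem Tm.e2 {A : ℕ → Bool} (t : Tm) (w : ℕ) : E2 A w (fun v => t.val (asg v)) := by
  induction t with
  | var i =>
    by_cases h : i < w
    · refine E2.of_eq (E2.proj w ⟨i, h⟩) (fun v => ?_)
      simp [Tm.val, asg, h]
    · refine E2.of_eq (E2.zero w) (fun v => ?_)
      simp [Tm.val, asg, h]
  | zero => exact E2.zero w
  | one => exact E2.const w 1
  | add s t hs ht => exact E2.add' hs ht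
  | mul s t hs ht => exact E2.mul' hs ht

theorem asg_vecCons {k : ℕ} (x : ℕ) (v : Fin k → ℕ) :
    asg (Matrix.vecCons x v) = cons x (asg v) := by
  funext i
  cases i with
  | zero => simp [asg, cons]
  | succ i =>
    simp only [asg, cons]
    by_cases h : i < k
    · rw [dif_pos (Nat.succ_lt_succ h), dif_pos h]
      rfl
    · rw [dif_neg (fun h' => h (Nat.lt_of_succ_lt_succ h')), dif_neg h]

end Pool.Agent.H752.AG
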