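import Pool.Agent.H752.AG.Base
import Pool.Agent.H752.AG.E2lib

/-!
# The parity predicate is in `E²_*`
-/

namespace Pool.Agent.H752.AG

namespace B12

open Classical in
/-- The parity of the number of elements of the oracle among the `y` numbers from `x (x - 1)` on:
`0` for odd, `1` for even. -/
noncomputable def F (A : ℕ → Bool) (y x : ℕ) : ℕ :=
  if Odd ((Finset.range y).filter (fun z => A (x * (x - 1) + z) = true)).card then 0 else 1

theorem F_le (A : ℕ → Bool) (y x : ℕ) : F A y x ≤ 1 := by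
  unfold F
  split_ifs <;> simp

theorem F_zero (A : ℕ → Bool) (x : ℕ) : F A 0 x = 1 := by
  simp [F]

theorem F_succ (A : ℕ → Bool) (y x : ℕ) :
    F A (y + 1) x = (F A y x - (A (x * (x - 1) + y)).toNat) +
      ((A (x * (x - 1) + y)).toNat - F A y x) := by
  unfold F
  rw [Finset.range_add_one, Finset.filter_insert]
  by_cases h : A (x * (x - 1) + y) = true
  · rw [if_pos h, Finset.card_insert_of_notMem (by simp), h]
    by_cases h2 : Odd ((Finset.range y).filter (fun z => A (x * (x - 1) + z) = true)).card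
    · rw [if_pos h2, if_neg (by rw [Nat.odd_add_one]; exact not_not.2 h2)]
      rfl
    · rw [if_neg h2, if_pos (by rw [Nat.odd_add_one]; exact h2)]
      rfl
  · rw [if_neg h, Bool.eq_false_iff.2 h]
    simp

theorem F_e2 (A : ℕ → Bool) : E2 A 2 (fun v => F A (v 0) (v 1)) := by
  refine E2.rec1 (g := fun _ => 1)
    (h := fun r y x => (r - (A (x * (x - 1) + y)).toNat) + ((A (x * (x - 1) + y)).toNat - r))
    (b := fun _ _ => 1) (E2.const 1 1) ?_ (E2.const 2 1) (F_le A) (F_zero A) (F_succ A)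
  have ho : E2 A 3 (fun v => (A (v 2 * (v 2 - 1) + v 1)).toNat) :=
    E2.orc' (E2.add' (E2.mul' (E2.proj 3 2) (E2.pred' (E2.proj 3 2))) (E2.proj 3 1))
  exact E2.add' (E2.sub' (E2.proj 3 0) ho) (E2.sub' ho (E2.proj 3 0))

end B12

theorem par_E2 (A : ℕ → Bool) : IsE2s A (fun v : Fin 1 → ℕ => ParN A (v 0)) := by
  refine ⟨fun v => B12.F A (v 0) (v 0),
    E2.comp2 (g := fun y x => B12.F A y x) (B12.F_e2 A) (E2.proj 1 0) (E2.proj 1 0),
    fun v => ⟨fun h => ?_, fun h => ?_⟩⟩
  · exact if_pos h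
  · exact if_neg h

end Pool.Agent.H752.AG
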