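import Pool.Agent.H752.AG.E2lib

/-!
# Bounded formulas are in `E²_*`
-/

namespace Pool.Agent.H752.AG

open Classical in
theorem BF.e2 {A : ℕ → Bool} (φ : BF) :
    ∀ w : ℕ, E2 A w (fun v => if φ.sat A (asg v) then 0 else 1) := by
  induction φ with
  | eq s t =>
    intro w
    refine E2.of_eq (E2.sg' (E2.add' (E2.sub' (s.e2 w) (t.e2 w)) (E2.sub' (t.e2 w) (s.e2 w))))
      (fun v => ?_)
    simp only [BF.sat]
    by_cases h : s.val (asg v) = t.val (asg v)
    · rw [if_pos h, if_pos (by omega)]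
    · rw [if_neg h, if_neg (by omega)]
  | le s t =>
    intro w
    refine E2.of_eq (E2.sg' (E2.sub' (s.e2 w) (t.e2 w))) (fun v => ?_)
    simp only [BF.sat]
    by_cases h : s.val (asg v) ≤ t.val (asg v)
    · rw [if_pos h, if_pos (by omega)]
    · rw [if_neg h, if_neg (by omega)]
  | orc t =>
    intro w
    refine E2.of_eq (E2.sub' (E2.const w 1) (E2.orc' (t.e2 w))) (fun v => ?_)
    simp only [BF.sat]
    by_cases h : A (t.val (asg v)) = true
    · rw [if_pos h, h]; rfl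
    · rw [if_neg h, Bool.eq_false_iff.2 h]; rfl
  | neg φ ih =>
    intro w
    refine E2.of_eq (E2.sub' (E2.const w 1) (ih w)) (fun v => ?_)
    simp only [BF.sat]
    by_cases h : φ.sat A (asg v) <;> simp [h]
  | and φ ψ ih₁ ih₂ =>
    intro w
    refine E2.of_eq (E2.sg' (E2.add' (ih₁ w) (ih₂ w))) (fun v => ?_)
    simp only [BF.sat]
    by_cases h : φ.sat A (asg v) <;> by_cases h' : ψ.sat A (asg v) <;> simp [h, h']
  | bex t φ ih =>
    intro w
    refine E2.of_eq (E2.bexLe (P := fun v => φ.sat A (asg v)) (ih (w + 1)) (t.e2 w))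
      (fun v => ?_)
    simp only [BF.sat, asg_vecCons]
    by_cases h : ∃ x, x ≤ t.val (asg v) ∧ φ.sat A (cons x (asg v))
    · rw [if_pos h, if_pos h]
    · rw [if_neg h, if_neg h]

theorem IsD0.isE2s {A : ℕ → Bool} {k : ℕ} {R : (Fin k → ℕ) → Prop} (h : IsD0 A R) :
    IsE2s A R := by
  classical
  obtain ⟨φ, hφ⟩ := h
  refine ⟨fun v => if φ.sat A (asg v) then 0 else 1, ?_, fun v => ⟨fun h => ?_, fun h => ?_⟩⟩
  · exact φ.e2 k
  · exact if_pos ((hφ v).1 h)
  · exact if_neg (fun h' => h ((hφ v).2 h'))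

end Pool.Agent.H752.AG
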