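import Pool.Agent.H752.AG.Base

/-! Task B14: spectra depend on polynomially many positions of the oracle. -/

namespace Pool.Agent.H752.AG

open Finset H568R2 Pool.Agent.H676 Pool.Agent.H620R2.Gauge

namespace B14

theorem ofDigits_lt (n : ℕ) (l : List ℕ) (h : ∀ x ∈ l, x < n) :
    Nat.ofDigits n l < n ^ l.length := by
  induction l with
  | nil => simp [Nat.ofDigits]
  | cons a l ih =>
    have h1 := ih (fun x hx => h x (List.mem_cons_of_mem _ hx))
    have h2 := h a List.mem_cons_self
    rw [Nat.ofDigits_cons, List.length_cons, pow_succ]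
    have h3 : n * (Nat.ofDigits n l + 1) ≤ n ^ l.length * n := by
      rw [mul_comm]
      exact Nat.mul_le_mul_right n h1
    rw [mul_add, mul_one] at h3
    have h4 : ((a : ℕ) : ℕ) + n * Nat.ofDigits n l < n + n * Nat.ofDigits n l := by omega
    have h5 : ((a : ℕ) : ℕ) + n * Nat.ofDigits n l < n ^ l.length * n := lt_of_lt_of_le h4 (by omega)
    exact h5

/-- the maximal length of an oracle question -/
def ml : FO → ℕ
  | .eq _ _ => 0
  | .le _ _ => 0
  | .orc l => l.length
  | .rel _ _ => 0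
  | .neg φ => ml φ
  | .and φ ψ => max (ml φ) (ml ψ)
  | .ex φ => ml φ

theorem main (φ : FO) (d : ℕ) : ml φ ≤ d → ∀ (A A' : ℕ → Bool) (n : ℕ) (_ : 1 ≤ n)
    (_ : ∀ z < (n + 2) ^ d, A z = A' z) (R : ℕ → List ℕ → Prop) (v : ℕ → ℕ)
    (_ : ∀ i, v i < n), φ.sat A n R v ↔ φ.sat A' n R v := by
  induction φ with
  | eq i j => exact fun _ A A' n hn h R v hv => Iff.rfl
  | le i j => exact fun _ A A' n hn h R v hv => Iff.rfl
  | orc l =>
    intro hd A A' n hn h R v hv
    show A _ = true ↔ A' _ = true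
    rw [h]
    have h1 := ofDigits_lt n (l.map v) (by
      intro x hx
      obtain ⟨i, -, rfl⟩ := List.mem_map.mp hx
      exact hv i)
    rw [List.length_map] at h1
    calc _ < n ^ l.length := h1
      _ ≤ (n + 2) ^ l.length := Nat.pow_le_pow_left (by omega) _
      _ ≤ (n + 2) ^ d := Nat.pow_le_pow_right (by omega) hd
  | rel r l => exact fun _ A A' n hn h R v hv => Iff.rfl
  | neg φ ih =>
    intro hd A A' n hn h R v hv
    exact not_congr (ih hd A A' n hn h R v hv)
  | and φ ψ ihφ ihψ =>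
    intro hd A A' n hn h R v hv
    exact and_congr (ihφ ((le_max_left _ _).trans hd) A A' n hn h R v hv)
      (ihψ ((le_max_right _ _).trans hd) A A' n hn h R v hv)
  | ex φ ih =>
    intro hd A A' n hn h R v hv
    show (∃ x, x < n ∧ φ.sat A n R (cons x v)) ↔ (∃ x, x < n ∧ φ.sat A' n R (cons x v))
    refine exists_congr fun x => and_congr_right fun hx => ih hd A A' n hn h R _ ?_
    intro i
    cases i with
    | zero => exact hx
    | succ i => exact hv i

end B14

theorem spec_local (φ : FO) : ∃ d : ℕ, ∀ (A A' : ℕ → Bool) (n : ℕ),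
    (∀ z < (n + 2) ^ d, A z = A' z) → (n ∈ spec A φ ↔ n ∈ spec A' φ) := by
  refine ⟨B14.ml φ, fun A A' n h => ?_⟩
  show (1 ≤ n ∧ ∃ R : ℕ → List ℕ → Prop, φ.sat A n R (fun _ => 0)) ↔
    (1 ≤ n ∧ ∃ R : ℕ → List ℕ → Prop, φ.sat A' n R (fun _ => 0))
  refine and_congr_right fun hn => exists_congr fun R => ?_
  exact B14.main φ _ le_rfl A A' n hn h R _ (fun _ => hn)

end Pool.Agent.H752.AG
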