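import Pool.Agent.H752.AG.Base

/-! Task B15 (helper953): the test predicate is a spectrum. -/

namespace Pool.Agent.H752.AG

namespace B15

def all (φ : FO) : FO := .neg (.ex (.neg φ))
def imp (φ ψ : FO) : FO := .neg (.and φ (.neg ψ))
def iff (φ ψ : FO) : FO := .and (imp φ ψ) (imp ψ φ)
def or (φ ψ : FO) : FO := .neg (.and (.neg φ) (.neg ψ))

theorem sat_all (A : ℕ → Bool) (n : ℕ) (R : ℕ → List ℕ → Prop) (φ : FO) (v : ℕ → ℕ) :
    (all φ).sat A n R v ↔ ∀ x, x < n → φ.sat A n R (cons x v) := by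
  simp only [all, FO.sat]
  constructor
  · intro h x hx
    by_contra hc
    exact h ⟨x, hx, hc⟩
  · rintro h ⟨x, hx, hc⟩
    exact hc (h x hx)

theorem sat_imp (A : ℕ → Bool) (n : ℕ) (R : ℕ → List ℕ → Prop) (φ ψ : FO) (v : ℕ → ℕ) :
    (imp φ ψ).sat A n R v ↔ (φ.sat A n R v → ψ.sat A n R v) := by
  simp only [imp, FO.sat]
  tauto

theorem sat_iff (A : ℕ → Bool) (n : ℕ) (R : ℕ → List ℕ → Prop) (φ ψ : FO) (v : ℕ → ℕ) :
    (iff φ ψ).sat A n R v ↔ (φ.sat A n R v ↔ ψ.sat A n R v) := by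
  simp only [iff, FO.sat, sat_imp]
  tauto

theorem sat_or (A : ℕ → Bool) (n : ℕ) (R : ℕ → List ℕ → Prop) (φ ψ : FO) (v : ℕ → ℕ) :
    (or φ ψ).sat A n R v ↔ (φ.sat A n R v ∨ ψ.sat A n R v) := by
  simp only [or, FO.sat]
  tauto

/-- the formula -/
def fm : FO :=
  .ex (.and (all (.le 0 1)) (.and (iff (.rel 0 [1]) (.orc [1, 0]))
    (.and (all (all (imp (.and (.le 1 0) (.and (.neg (.eq 1 0)) (all (or (.le 0 2) (.le 1 0)))))
      (iff (.rel 0 [0]) (iff (.rel 0 [1]) (.neg (.orc [0, 2]))))))) (.rel 0 [0]))))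

theorem sat_fm (A : ℕ → Bool) (n : ℕ) (R : ℕ → List ℕ → Prop) :
    fm.sat A n R (fun _ => 0) ↔ ∃ m, m < n ∧ (∀ y, y < n → y ≤ m) ∧
      (R 0 [0] ↔ A (n * m) = true) ∧
      (∀ y, y < n → ∀ y', y' < n → (y ≤ y' ∧ ¬ y = y' ∧ ∀ z, z < n → z ≤ y ∨ y' ≤ z) →
        (R 0 [y'] ↔ (R 0 [y] ↔ ¬ A (y' + n * m) = true))) ∧ R 0 [m] := by
  simp only [fm, FO.sat, sat_all, sat_imp, sat_iff, sat_or, cons, List.map_cons, List.map_nil,
    Nat.ofDigits_cons, Nat.ofDigits_nil, Nat.mul_zero, Nat.add_zero, Nat.zero_add]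

/-- the parity of an initial segment -/
def c (A : ℕ → Bool) (n y : ℕ) : Prop :=
  Odd ((Finset.range (y + 1)).filter (fun z => A (n * (n - 1) + z) = true)).card

theorem c_zero (A : ℕ → Bool) (n : ℕ) : c A n 0 ↔ A (n * (n - 1)) = true := by
  unfold c
  rw [Finset.range_one, Finset.filter_singleton]
  by_cases h : A (n * (n - 1) + 0) = true
  · rw [if_pos h]; simpa using h
  · rw [if_neg h]; simpa using h

theorem c_succ (A : ℕ → Bool) (n y : ℕ) :
    c A n (y + 1) ↔ (c A n y ↔ ¬ A (n * (n - 1) + (y + 1)) = true) := by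
  unfold c
  rw [Finset.range_add_one, Finset.filter_insert]
  by_cases h : A (n * (n - 1) + (y + 1)) = true
  · rw [if_pos h, Finset.card_insert_of_notMem (by simp), Nat.odd_add_one]
    simp [h]
  · rw [if_neg h]
    simp [h]

theorem par_eq (A : ℕ → Bool) (n : ℕ) (hn : 1 ≤ n) : ParN A n ↔ c A n (n - 1) := by
  unfold ParN c
  rw [Nat.sub_add_cancel hn]

end B15

open B15 in
theorem par_spec : ∃ φ : FO, ∀ A : ℕ → Bool, spec A φ = {x | ParN A x} := by
  refine ⟨fm, fun A => ?_⟩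
  ext n
  simp only [spec, Set.mem_ofPred_eq, sat_fm]
  constructor
  · rintro ⟨hn, R, m, hm, hmax, h0, hs, hP⟩
    have hm' : m = n - 1 := by
      have := hmax (n - 1) (by omega)
      omega
    subst hm'
    rw [par_eq A n hn]
    have key : ∀ y, y < n → (R 0 [y] ↔ c A n y) := by
      intro y
      induction y with
      | zero => intro _; rw [h0, c_zero]
      | succ y ih =>
        intro hy
        have h1 := hs y (by omega) (y + 1) hy ⟨by omega, by omega, fun z _ => by omega⟩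
        rw [h1, ih (by omega), c_succ, add_comm (y + 1)]
    exact (key _ hm).1 hP
  · intro h
    have hn : 1 ≤ n := by
      by_contra hc
      have : n = 0 := by omega
      subst this
      simp [ParN] at h
    rw [par_eq A n hn] at h
    refine ⟨hn, fun _ l => c A n l.head!, n - 1, by omega, fun y hy => by omega, ?_, ?_, ?_⟩
    · exact c_zero A n
    · intro y hy y' hy' ⟨h1, h2, h3⟩
      have : y' = y + 1 := by
        have := h3 (y + 1) (by omega)
        omega
      subst this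
      show c A n (y + 1) ↔ (c A n y ↔ _)
      rw [c_succ, add_comm (y + 1)]
    · exact h

end Pool.Agent.H752.AG
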