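import Pool.Agent.H752.AG.Base
import Pool.Agent.H620R2.Gauge.Comb

/-! Task B2: the combinatorial estimate (adapted from `Pool.Agent.H620R2.Gauge.comb`). -/

namespace Pool.Agent.H752.AG

open Finset H568R2 Pool.Agent.H676 Pool.Agent.H620R2.Gauge

open Classical in
theorem comb_gen {I : Type*} [Fintype I] [DecidableEq I] {t : ℕ} {Q : ℝ} (h0 : 0 ≤ Q)
    (h1 : Q ≤ 1) {ι : Type*} (X : Finset ι) (B : ι → Finset I)
    (hB : ∀ x ∈ X, ∀ x' ∈ X, x ≠ x' → Disjoint (B x) (B x')) (V : ι → (I → Bool) → Bool) (β : ℝ)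
    (hβ : Ex (wq Q) (fun ρ : Restr I => if ¬ ∀ x ∈ X, DTr t (rs (V x) ρ) then (1 : ℝ) else 0) ≤ β)
    (r s : ℕ) (hr : X.card * t ≤ r) (hs : ∀ x ∈ X, (r + 1) * s ≤ (B x).card) :
    Ex unif (fun a : I → Bool => if ∀ x ∈ X, V x a = par (B x) a then (1 : ℝ) else 0) ≤
      β + X.card * ((r + 1) * (1 - Q) ^ s) + (1 / 2) ^ X.card := by
  rw [← Ex_ov (q := Q)]
  have hpt : ∀ ρ : Restr I, Ex unif (fun a : I → Bool =>
      if ∀ x ∈ X, V x (ov ρ a) = par (B x) (ov ρ a) then (1 : ℝ) else 0) ≤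
      ((if ¬ ∀ x ∈ X, DTr t (rs (V x) ρ) then (1 : ℝ) else 0) +
        ∑ x ∈ X, (if ((B x).filter (fun i => ρ i = none)).card ≤ r then (1 : ℝ) else 0)) +
        (1 / 2) ^ X.card := by
    intro ρ
    have hle1 : Ex unif (fun a : I → Bool =>
      if ∀ x ∈ X, V x (ov ρ a) = par (B x) (ov ρ a) then (1 : ℝ) else 0) ≤ 1 := by
      calc _ ≤ Ex unif (fun _ : I → Bool => (1 : ℝ)) := by
            apply Ex_mono unif_nonneg
            intro a
            split_ifs <;> norm_num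
        _ = 1 := Ex_const unif_sum 1
    have hs0 : 0 ≤ ∑ x ∈ X, (if ((B x).filter (fun i => ρ i = none)).card ≤ r
        then (1 : ℝ) else 0) := Finset.sum_nonneg fun x _ => by split_ifs <;> norm_num
    have hh0 : (0 : ℝ) ≤ (1 / 2) ^ X.card := by positivity
    by_cases hG : ∀ x ∈ X, DTr t (rs (V x) ρ)
    · have h3 : (0:ℝ) ≤ (if ¬ ∀ x ∈ X, DTr t (rs (V x) ρ) then (1 : ℝ) else 0) := by
        split_ifs <;> norm_num
      by_cases hst : ∃ x ∈ X, ((B x).filter (fun i => ρ i = none)).card ≤ r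
      · obtain ⟨x, hx, hxr⟩ := hst
        have h2 : (1 : ℝ) ≤ ∑ x ∈ X, (if ((B x).filter (fun i => ρ i = none)).card ≤ r
            then (1 : ℝ) else 0) := by
          refine le_trans ?_ (Finset.single_le_sum (f := fun x =>
            if ((B x).filter (fun i => ρ i = none)).card ≤ r then (1 : ℝ) else 0)
            (fun x _ => by positivity) hx)
          rw [if_pos hxr]
        linarith
      · push Not at hst
        have h5 : Ex unif (fun a : I → Bool =>
            if ∀ x ∈ X, V x (ov ρ a) = par (B x) (ov ρ a)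
              then (1 : ℝ) else 0) ≤ (1 / 2) ^ X.card :=
          xor_bound ρ X B hB V t hG (fun x hx => lt_of_le_of_lt hr (hst x hx))
        linarith
    · rw [if_pos hG]
      linarith
  refine (Ex_mono (wq_nonneg h0 h1) hpt).trans ?_
  rw [Ex_add, Ex_add, Ex_sum, Ex_const (wq_sum Q)]
  have h8 : ∀ x ∈ X, Ex (wq Q) (fun ρ : Restr I =>
      if ((B x).filter (fun i => ρ i = none)).card ≤ r then (1 : ℝ) else 0) ≤
      (r + 1) * (1 - Q) ^ s := fun x hx => few_stars h0 h1 (B x) r s (hs x hx)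
  have h9 := Finset.sum_le_sum h8
  rw [Finset.sum_const, nsmul_eq_mul] at h9
  linarith

end Pool.Agent.H752.AG
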