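import Pool.Agent.H752.AG.B1
import Pool.Agent.H752.AG.B2

/-! Task B3: the probability that a bounded formula computes the parities. -/

namespace Pool.Agent.H752.AG

open Finset H568R2 Pool.Agent.H676 Pool.Agent.H620R2.Gauge

namespace B3

theorem sq_eq (x : ℕ) : x * (x - 1) + x = x * x := by
  cases x with
  | zero => rfl
  | succ x => simp only [Nat.add_sub_cancel]; ring

theorem blkN_filter (N x : ℕ) (hN : x * x ≤ N) (P : ℕ → Prop) [DecidablePred P] :
    ((blkN N x).filter (fun i : Fin N => P i.val)).card =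
      ((Finset.range x).filter (fun y => P (x * (x - 1) + y))).card := by
  symm
  have hx := sq_eq x
  refine Finset.card_bij (fun y hy => ⟨x * (x - 1) + y, by
    rw [Finset.mem_filter, Finset.mem_range] at hy
    omega⟩) ?_ ?_ ?_
  · intro y hy
    rw [Finset.mem_filter, Finset.mem_range] at hy
    rw [Finset.mem_filter, blkN, Finset.mem_filter]
    refine ⟨⟨Finset.mem_univ _, ?_, ?_⟩, hy.2⟩
    · show x * (x - 1) ≤ x * (x - 1) + y
      omega
    · show x * (x - 1) + y < x * (x - 1) + x
      omega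
  · intro y hy y' hy' h
    have h1 : x * (x - 1) + y = x * (x - 1) + y' := congrArg Fin.val h
    omega
  · intro i hi
    rw [Finset.mem_filter, blkN, Finset.mem_filter] at hi
    obtain ⟨⟨_, h1, h2⟩, h3⟩ := hi
    refine ⟨i.val - x * (x - 1), ?_, ?_⟩
    · rw [Finset.mem_filter, Finset.mem_range]
      refine ⟨by omega, ?_⟩
      rw [show x * (x - 1) + (i.val - x * (x - 1)) = i.val by omega]
      exact h3
    · apply Fin.ext
      show x * (x - 1) + (i.val - x * (x - 1)) = i.val
      omega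

theorem blkN_card (N x : ℕ) (hN : x * x ≤ N) : (blkN N x).card = x := by
  have h := blkN_filter N x hN (fun _ => True)
  simpa using h

theorem blkN_par (N x : ℕ) (hN : x * x ≤ N) (a : Fin N → Bool) :
    par (blkN N x) a = true ↔ ParN (ext N a) x := by
  have h := blkN_filter N x hN (fun z => ext N a z = true)
  have h2 : ∀ i : Fin N, (ext N a i.val = true) = (a i = true) := by
    intro i
    unfold ext
    rw [dif_pos i.2]
  simp only [h2] at h
  unfold par ParN
  rw [decide_eq_true_eq, h]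

theorem blkN_disj (N x x' : ℕ) (hne : x ≠ x') : Disjoint (blkN N x) (blkN N x') := by
  have key : ∀ x x' : ℕ, x < x' → Disjoint (blkN N x) (blkN N x') := by
    intro x x' h
    rw [Finset.disjoint_left]
    intro i hi hi'
    rw [blkN, Finset.mem_filter] at hi hi'
    have h1 := sq_eq x
    have h2 : x * x ≤ x' * (x' - 1) := Nat.mul_le_mul (by omega) (by omega)
    omega
  rcases Nat.lt_or_gt_of_ne hne with h | h
  · exact key x x' h
  · exact (key x' x h).symm

theorem asg_box (x X : ℕ) (h : x ≤ X) : asg ![x] ∈ Box 1 X := by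
  refine ⟨?_, ?_⟩
  · intro i hi
    have : i = 0 := by omega
    subst this
    show (if h : 0 < 1 then ![x] ⟨0, h⟩ else 0) ≤ X
    simpa using h
  · intro i hi
    show (if h : i < 1 then ![x] ⟨i, h⟩ else 0) = 0
    rw [dif_neg (by omega)]

end B3

open Classical in
theorem event_bound {t : ℕ} (ht : 1 ≤ t) {q : ℝ} (h0 : 0 ≤ q) (h1 : q ≤ 1 / 3) (φ : BF)
    {M K N s : ℕ} (hK : K ≤ M) (hs : (K * t + 1) * s ≤ M) (hN : 4 * M * M ≤ N) :
    Ex unif (fun a : Fin N → Bool => if ∀ x ∈ Finset.Ico M (M + K),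
      (φ.sat (ext N a) (asg ![x]) ↔ ParN (ext N a) x) then (1 : ℝ) else 0) ≤
      φ.cnt 1 (2 * M) * (12 * t * q) ^ (t + 1) + K * ((K * t + 1) * (1 - q ^ φ.dep) ^ s) +
        (1 / 2) ^ K := by
  have hq0 : 0 ≤ q ^ φ.dep := pow_nonneg h0 _
  have hq1 : q ^ φ.dep ≤ 1 := pow_le_one₀ h0 (by linarith)
  have hxN : ∀ x ∈ Finset.Ico M (M + K), x * x ≤ N := by
    intro x hx
    rw [Finset.mem_Ico] at hx
    calc x * x ≤ (2 * M) * (2 * M) := Nat.mul_le_mul (by omega) (by omega)
      _ = 4 * M * M := by ring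
      _ ≤ N := hN
  have hcard : (Finset.Ico M (M + K)).card = K := by rw [Nat.card_Ico]; omega
  have hβ : Ex (wq (q ^ φ.dep)) (fun ρ : Restr (Fin N) =>
      if ¬ ∀ x ∈ Finset.Ico M (M + K),
        DTr t (rs (fun a : Fin N → Bool => decide (φ.sat (ext N a) (asg ![x]))) ρ)
      then (1 : ℝ) else 0) ≤ φ.cnt 1 (2 * M) * (12 * t * q) ^ (t + 1) := by
    refine le_trans (Ex_mono (wq_nonneg hq0 hq1) ?_) (switch_BF (N := N) ht h0 h1 φ 1 (2 * M))
    intro ρ
    by_cases hG : ∀ v ∈ Box 1 (2 * M),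
      DTr t (rs (fun a : Fin N → Bool => decide (φ.sat (ext N a) v)) ρ)
    · rw [if_neg (not_not.2 hG), if_neg]
      rw [not_not]
      intro x hx
      rw [Finset.mem_Ico] at hx
      exact hG _ (B3.asg_box x (2 * M) (by omega))
    · rw [if_pos hG]
      split_ifs <;> norm_num
  have hmain := comb_gen (I := Fin N) (t := t) hq0 hq1 (Finset.Ico M (M + K)) (blkN N)
    (fun x _ x' _ h => B3.blkN_disj N x x' h)
    (fun x a => decide (φ.sat (ext N a) (asg ![x]))) _ hβ (K * t) s (by rw [hcard])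
    (by
      intro x hx
      rw [B3.blkN_card N x (hxN x hx)]
      rw [Finset.mem_Ico] at hx
      omega)
  rw [hcard] at hmain
  push_cast at hmain
  refine le_trans (le_of_eq ?_) hmain
  congr 1
  funext a
  have hiff : (∀ x ∈ Finset.Ico M (M + K), (φ.sat (ext N a) (asg ![x]) ↔ ParN (ext N a) x)) ↔
      (∀ x ∈ Finset.Ico M (M + K), decide (φ.sat (ext N a) (asg ![x])) = par (blkN N x) a) := by
    refine forall_congr' fun x => forall_congr' fun hx => ?_
    rw [Bool.eq_iff_iff, decide_eq_true_iff, B3.blkN_par N x (hxN x hx)]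
  simp only [hiff]

end Pool.Agent.H752.AG
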