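import Pool.Agent.H752.AG.Base

/-! Task B4: polynomial bounds for bounded formulas. -/

namespace Pool.Agent.H752.AG

open Finset H568R2 Pool.Agent.H676 Pool.Agent.H620R2.Gauge

namespace B4

theorem val_mono (u : Tm) {v v' : ℕ → ℕ} (h : ∀ i, v i ≤ v' i) : u.val v ≤ u.val v' := by
  induction u with
  | var i => exact h i
  | zero => exact le_rfl
  | one => exact le_rfl
  | add s t hs ht => exact Nat.add_le_add hs ht
  | mul s t hs ht => exact Nat.mul_le_mul hs ht

theorem pow_mono (X : ℕ) {a b : ℕ} (h : a ≤ b) : (X + 2) ^ a ≤ (X + 2) ^ b :=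
  Nat.pow_le_pow_right (by omega) h

theorem add_pow_le (X a b : ℕ) : (X + 2) ^ a + (X + 2) ^ b ≤ (X + 2) ^ (a + b + 1) := by
  have h1 : (X + 2) ^ a ≤ (X + 2) ^ (a + b) := pow_mono X (by omega)
  have h2 : (X + 2) ^ b ≤ (X + 2) ^ (a + b) := pow_mono X (by omega)
  calc (X + 2) ^ a + (X + 2) ^ b ≤ (X + 2) ^ (a + b) + (X + 2) ^ (a + b) := Nat.add_le_add h1 h2
    _ = (X + 2) ^ (a + b) * 2 := by ring
    _ ≤ (X + 2) ^ (a + b) * (X + 2) := Nat.mul_le_mul_left _ (by omega)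
    _ = (X + 2) ^ (a + b + 1) := (pow_succ _ _).symm

theorem tm_bound (u : Tm) : ∃ c : ℕ, ∀ X : ℕ, u.val (fun _ => X) < (X + 2) ^ c := by
  induction u with
  | var i => exact ⟨1, fun X => by show X < (X + 2) ^ 1; rw [pow_one]; omega⟩
  | zero => exact ⟨0, fun X => by show 0 < (X + 2) ^ 0; norm_num⟩
  | one => exact ⟨1, fun X => by show 1 < (X + 2) ^ 1; rw [pow_one]; omega⟩
  | add s t hs ht =>
    obtain ⟨a, ha⟩ := hs
    obtain ⟨b, hb⟩ := ht
    refine ⟨a + b + 1, fun X => ?_⟩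
    show s.val _ + t.val _ < _
    have := add_pow_le X a b
    have h1 := ha X
    have h2 := hb X
    omega
  | mul s t hs ht =>
    obtain ⟨a, ha⟩ := hs
    obtain ⟨b, hb⟩ := ht
    refine ⟨a + b, fun X => ?_⟩
    show s.val _ * t.val _ < _
    rw [pow_add]
    exact Nat.mul_lt_mul'' (ha X) (hb X)

theorem val_box {w X : ℕ} {v : ℕ → ℕ} (hv : v ∈ Box w X) (u : Tm) :
    u.val v ≤ u.val (fun _ => X) := by
  apply val_mono
  intro i
  rcases Nat.lt_or_ge i w with h | h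
  · exact hv.1 i h
  · rw [hv.2 i h]
    exact Nat.zero_le _

theorem cons_box {w X : ℕ} {v : ℕ → ℕ} (hv : v ∈ Box w X) (t : Tm) {x : ℕ} (hx : x ≤ t.val v) :
    cons x v ∈ Box (w + 1) (nxt t X) := by
  refine ⟨?_, ?_⟩
  · intro i hi
    cases i with
    | zero =>
      show x ≤ X + t.val (fun _ => X)
      have := val_box hv t
      omega
    | succ i =>
      show v i ≤ X + t.val (fun _ => X)
      have := hv.1 i (by omega)
      omega
  · intro i hi
    cases i with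
    | zero => omega
    | succ i =>
      show v i = 0
      exact hv.2 i (by omega)

theorem main (φ : BF) : ∀ w : ℕ, ∃ C : ℕ, (∀ X, φ.cnt w X ≤ (X + 2) ^ C) ∧
    ∀ (X : ℕ) (v : ℕ → ℕ) (A A' : ℕ → Bool), v ∈ Box w X →
      (∀ z < (X + 2) ^ C, A z = A' z) → (φ.sat A v ↔ φ.sat A' v) := by
  induction φ with
  | eq s t => exact fun w => ⟨0, fun X => Nat.zero_le _, fun X v A A' _ _ => Iff.rfl⟩
  | le s t => exact fun w => ⟨0, fun X => Nat.zero_le _, fun X v A A' _ _ => Iff.rfl⟩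
  | orc t =>
    intro w
    obtain ⟨c, hc⟩ := tm_bound t
    refine ⟨c, fun X => Nat.zero_le _, fun X v A A' hv h => ?_⟩
    show A (t.val v) = true ↔ A' (t.val v) = true
    rw [h _ (lt_of_le_of_lt (val_box hv t) (hc X))]
  | neg φ ih =>
    intro w
    obtain ⟨C, h1, h2⟩ := ih w
    exact ⟨C, h1, fun X v A A' hv h => not_congr (h2 X v A A' hv h)⟩
  | and φ ψ ihφ ihψ =>
    intro w
    obtain ⟨C, h1, h2⟩ := ihφ w
    obtain ⟨C', h1', h2'⟩ := ihψ w
    refine ⟨C + C' + 1 + w + 1, fun X => ?_, fun X v A A' hv h => ?_⟩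
    · show φ.cnt w X + ψ.cnt w X + (X + 1) ^ w ≤ _
      have e1 := h1 X
      have e2 := h1' X
      have e3 := add_pow_le X C C'
      have e4 := add_pow_le X (C + C' + 1) w
      have e5 : (X + 1) ^ w ≤ (X + 2) ^ w := Nat.pow_le_pow_left (by omega) w
      omega
    · exact and_congr (h2 X v A A' hv fun z hz => h z (lt_of_lt_of_le hz (pow_mono X (by omega))))
        (h2' X v A A' hv fun z hz => h z (lt_of_lt_of_le hz (pow_mono X (by omega))))
  | bex t φ ih =>
    intro w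
    obtain ⟨C, h1, h2⟩ := ih (w + 1)
    obtain ⟨c, hc⟩ := tm_bound t
    have hn : ∀ X, nxt t X + 2 ≤ (X + 2) ^ (c + 2) := by
      intro X
      have e1 := hc X
      have e2 := add_pow_le X 1 c
      have e3 : 1 + c + 1 = c + 2 := by ring
      rw [e3, pow_one] at e2
      show X + t.val (fun _ => X) + 2 ≤ _
      omega
    have hn2 : ∀ X, (nxt t X + 2) ^ C ≤ (X + 2) ^ ((c + 2) * C) := by
      intro X
      rw [pow_mul]
      exact Nat.pow_le_pow_left (hn X) C
    refine ⟨(c + 2) * C + w + 1, fun X => ?_, fun X v A A' hv h => ?_⟩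
    · show φ.cnt (w + 1) (nxt t X) + (X + 1) ^ w ≤ _
      have e1 := h1 (nxt t X)
      have e2 := hn2 X
      have e4 := add_pow_le X ((c + 2) * C) w
      have e5 : (X + 1) ^ w ≤ (X + 2) ^ w := Nat.pow_le_pow_left (by omega) w
      omega
    · show (∃ x, x ≤ t.val v ∧ φ.sat A (cons x v)) ↔ (∃ x, x ≤ t.val v ∧ φ.sat A' (cons x v))
      refine exists_congr fun x => and_congr_right fun hx => ?_
      refine h2 (nxt t X) (cons x v) A A' (cons_box hv t hx) fun z hz => h z ?_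
      exact lt_of_lt_of_le (lt_of_lt_of_le hz (hn2 X)) (pow_mono X (by omega))

end B4

theorem bf_poly (φ : BF) : ∃ C : ℕ, (∀ X, φ.cnt 1 X ≤ (X + 2) ^ C) ∧
    ∀ (X : ℕ) (v : ℕ → ℕ) (A A' : ℕ → Bool), v ∈ Box 1 X →
      (∀ z < (X + 2) ^ C, A z = A' z) → (φ.sat A v ↔ φ.sat A' v) := B4.main φ 1

end Pool.Agent.H752.AG
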