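import Pool.Agent.H752.AG.Base

/-!
# Choice of the parameters
-/

namespace Pool.Agent.H752.AG

open Finset Filter Topology

namespace B5

theorem lim (B : ℝ) (D : ℕ) {r : ℝ} (h0 : 0 < r) (h1 : r < 1) :
    Tendsto (fun u : ℕ => B * ((u : ℝ) + 1) ^ D * r ^ u) atTop (𝓝 0) := by
  have h := tendsto_pow_const_mul_const_pow_of_abs_lt_one D (r := r) (by rwa [abs_of_pos h0])
  have h2 := (h.comp (tendsto_add_atTop_nat 1)).const_mul (B / r)
  rw [mul_zero] at h2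
  refine h2.congr fun u => ?_
  simp only [Function.comp_def]
  push_cast
  rw [pow_succ]
  field_simp

theorem uval {η : ℝ} (hη : 0 < η) :
    Tendsto (fun N : ℕ => ⌊(N : ℝ) ^ η⌋₊) atTop atTop :=
  tendsto_nat_floor_atTop.comp ((tendsto_rpow_atTop hη).comp tendsto_natCast_atTop_atTop)

/-- the number of blocks times the length -/
theorem boundM (k C u : ℕ) (hu : 1 ≤ u) :
    4 * ((u * u + 1) * (u * (24 * u) ^ k)) * ((u * u + 1) * (u * (24 * u) ^ k)) ≤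
      (4 * 24 ^ k) ^ (C + 2) * (u + 1) ^ ((k + 3) * (C + 2)) ∧
    (2 * ((u * u + 1) * (u * (24 * u) ^ k)) + 2) ^ C ≤
      (4 * 24 ^ k) ^ (C + 2) * (u + 1) ^ ((k + 3) * (C + 2)) := by
  set M := (u * u + 1) * (u * (24 * u) ^ k) with hM
  have hM1 : M ≤ 24 ^ k * (u + 1) ^ (k + 3) := by
    have h1 : u * u + 1 ≤ (u + 1) ^ 2 := by nlinarith
    have h2 : u * (24 * u) ^ k ≤ (u + 1) * (24 ^ k * (u + 1) ^ k) := by
      rw [mul_pow]
      gcongr <;> omega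
    calc M ≤ (u + 1) ^ 2 * ((u + 1) * (24 ^ k * (u + 1) ^ k)) := Nat.mul_le_mul h1 h2
      _ = 24 ^ k * (u + 1) ^ (k + 3) := by ring
  have h24 : 1 ≤ 24 ^ k := Nat.one_le_pow _ _ (by norm_num)
  have hu1 : 1 ≤ (u + 1) ^ (k + 3) := Nat.one_le_pow _ _ (by omega)
  have hV : 1 ≤ 24 ^ k * (u + 1) ^ (k + 3) := Nat.mul_pos h24 hu1
  set V := 24 ^ k * (u + 1) ^ (k + 3) with hVd
  have hW : (4 * 24 ^ k) ^ (C + 2) * (u + 1) ^ ((k + 3) * (C + 2)) = (4 * V) ^ (C + 2) := by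
    rw [pow_mul, ← mul_pow, hVd]
    ring
  rw [hW]
  constructor
  · calc 4 * M * M ≤ 4 * V * V := by gcongr
      _ ≤ (4 * V) ^ 2 := by nlinarith
      _ ≤ (4 * V) ^ (C + 2) := Nat.pow_le_pow_right (by omega) (by omega)
  · calc (2 * M + 2) ^ C ≤ (4 * V) ^ C := Nat.pow_le_pow_left (by omega) _
      _ ≤ (4 * V) ^ (C + 2) := Nat.pow_le_pow_right (by omega) (by omega)

theorem half_exp (u : ℕ) : Real.exp (-(u : ℝ)) ≤ (1 / 2) ^ u := by
  have h : Real.exp (-1) ≤ 1 / 2 := by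
    have h1 : (2 : ℝ) ≤ Real.exp 1 := by
      have := Real.add_one_le_exp (1 : ℝ)
      linarith
    rw [Real.exp_neg, one_div]
    exact inv_anti₀ (by norm_num) h1
  calc Real.exp (-(u : ℝ)) = Real.exp (-1) ^ u := by
        rw [← Real.exp_nat_mul]
        ring_nf
    _ ≤ (1 / 2) ^ u := pow_le_pow_left₀ (Real.exp_pos _).le h _

theorem two_rpow (u : ℕ) {y : ℝ} (hy : y ≤ ((u : ℝ) + 1) ^ (1 / 2 : ℝ)) :
    (2 : ℝ) ^ y ≤ 2 * (Real.sqrt 2) ^ u := by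
  have h0 : (0 : ℝ) ≤ (u : ℝ) + 1 := by positivity
  have h1 : ((u : ℝ) + 1) ^ (1 / 2 : ℝ) ≤ (u : ℝ) / 2 + 1 := by
    rw [← Real.sqrt_eq_rpow]
    refine Real.sqrt_le_iff.2 ⟨by positivity, ?_⟩
    nlinarith [sq_nonneg (u : ℝ)]
  calc (2 : ℝ) ^ y ≤ (2 : ℝ) ^ ((u : ℝ) / 2 + 1) :=
        Real.rpow_le_rpow_of_exponent_le (by norm_num) (hy.trans h1)
    _ = 2 * (Real.sqrt 2) ^ u := by
        rw [Real.rpow_add (by norm_num), Real.rpow_one, mul_comm, Real.sqrt_eq_rpow,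
          ← Real.rpow_natCast, ← Real.rpow_mul (by norm_num)]
        ring_nf

end B5

open B5 in
theorem asymN (k C : ℕ) (f : ℕ → ℝ) (hf : CondN f) (δ : ℝ) (hδ : 0 < δ) :
    ∃ (M K s t N : ℕ) (q : ℝ), 1 ≤ t ∧ 0 ≤ q ∧ q ≤ 1 / 3 ∧ K ≤ M ∧ (K * t + 1) * s ≤ M ∧
      4 * M * M ≤ N ∧ (2 * M + 2) ^ C ≤ N ∧
      (((2 * M + 2) ^ C : ℕ) * (12 * t * q) ^ (t + 1) + K * ((K * t + 1) * (1 - q ^ k) ^ s) +
        (1 / 2) ^ K) * 2 ^ f N ≤ δ := by
  set D : ℕ := (k + 3) * (C + 2) with hD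
  set B : ℕ := (4 * 24 ^ k) ^ (C + 2) with hB
  have hD0 : 0 < D := by positivity
  have hDr : (0 : ℝ) < D := by exact_mod_cast hD0
  set η : ℝ := 1 / (2 * D) with hη
  have hη0 : 0 < η := by positivity
  -- the three conditions on N
  have e1 := (uval hη0).eventually_ge_atTop 1
  have hsq : 0 < Real.sqrt 2 := Real.sqrt_pos.2 (by norm_num)
  have hsq2 : Real.sqrt 2 < 2 := by
    rw [Real.sqrt_lt' (by norm_num)]
    norm_num
  have e2 := ((lim (2 * ((B : ℝ) + 2)) (D + 3) (r := Real.sqrt 2 / 2) (by positivity)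
    (by rw [div_lt_one (by norm_num)]; exact hsq2)).comp (uval hη0)).eventually_le_const hδ
  have e3 : ∀ᶠ N : ℕ in atTop, (B : ℝ) * 2 ^ D ≤ (N : ℝ) ^ (1 / 2 : ℝ) :=
    ((tendsto_rpow_atTop (by norm_num : (0 : ℝ) < 1 / 2)).comp
      tendsto_natCast_atTop_atTop).eventually_ge_atTop _
  obtain ⟨N, hfN, hN1, hN2, hN3, hN4⟩ := ((hf (η / 2) (by positivity)).and_eventually
    (e1.and (e2.and (e3.and (eventually_ge_atTop 1))))).exists
  set u : ℕ := ⌊(N : ℝ) ^ η⌋₊ with hu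
  simp only [Function.comp_def] at hN2
  rw [← hu] at hN2
  have hNr : (1 : ℝ) ≤ N := by exact_mod_cast hN4
  have hNη : (1 : ℝ) ≤ (N : ℝ) ^ η := Real.one_le_rpow hNr hη0.le
  have hule : (u : ℝ) ≤ (N : ℝ) ^ η := Nat.floor_le (by positivity)
  have hult : (N : ℝ) ^ η < u + 1 := Nat.lt_floor_add_one _
  have hur : (1 : ℝ) ≤ u := by exact_mod_cast hN1
  -- the bound for the polynomial
  have hPN : B * (u + 1) ^ D ≤ N := by
    have h1 : (B : ℝ) * ((u : ℝ) + 1) ^ D ≤ N := by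
      have h2 : ((u : ℝ) + 1) ^ D ≤ (2 * (N : ℝ) ^ η) ^ D :=
        pow_le_pow_left₀ (by positivity) (by linarith) _
      have h3 : ((N : ℝ) ^ η) ^ D = (N : ℝ) ^ (1 / 2 : ℝ) := by
        rw [← Real.rpow_natCast, ← Real.rpow_mul (by positivity)]
        congr 1
        rw [hη]
        field_simp
      rw [mul_pow, h3] at h2
      calc (B : ℝ) * ((u : ℝ) + 1) ^ D ≤ B * (2 ^ D * (N : ℝ) ^ (1 / 2 : ℝ)) := by gcongr
        _ = (B * 2 ^ D) * (N : ℝ) ^ (1 / 2 : ℝ) := by ring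
        _ ≤ (N : ℝ) ^ (1 / 2 : ℝ) * (N : ℝ) ^ (1 / 2 : ℝ) := by gcongr
        _ = N := by
          rw [← Real.rpow_add (by positivity)]
          norm_num
    exact_mod_cast h1
  obtain ⟨hb1, hb2⟩ := boundM k C u hN1
  rw [← hD, ← hB] at hb1 hb2
  refine ⟨(u * u + 1) * (u * (24 * u) ^ k), u, u * (24 * u) ^ k, u, N, 1 / (24 * u), hN1,
    by positivity, ?_, ?_, le_refl _, hb1.trans hPN, hb2.trans hPN, ?_⟩
  · rw [div_le_div_iff₀ (by positivity) (by norm_num)]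
    linarith
  · have h1 : 1 ≤ (24 * u) ^ k := Nat.one_le_pow _ _ (by omega)
    calc u = 1 * (u * 1) := by ring
      _ ≤ (u * u + 1) * (u * (24 * u) ^ k) := by gcongr; omega
  · set T : ℕ := (2 * ((u * u + 1) * (u * (24 * u) ^ k)) + 2) ^ C with hT
    have hq : (12 : ℝ) * u * (1 / (24 * u)) = 1 / 2 := by
      field_simp
      norm_num
    rw [hq]
    have hs : (1 - (1 / (24 * (u : ℝ))) ^ k) ^ (u * (24 * u) ^ k) ≤ (1 / 2) ^ u := by
      have h1 : (1 / (24 * (u : ℝ))) ^ k ≤ 1 := by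
        apply pow_le_one₀ (by positivity)
        rw [div_le_one (by positivity)]
        linarith
      calc (1 - (1 / (24 * (u : ℝ))) ^ k) ^ (u * (24 * u) ^ k)
          ≤ (Real.exp (-(1 / (24 * (u : ℝ))) ^ k)) ^ (u * (24 * u) ^ k) :=
            pow_le_pow_left₀ (by linarith) (Real.one_sub_le_exp_neg _) _
        _ = Real.exp (-(u : ℝ)) := by
            rw [← Real.exp_nat_mul]
            congr 1
            push_cast
            rw [one_div, inv_pow]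
            have : (24 * (u : ℝ)) ^ k ≠ 0 := by positivity
            field_simp
        _ ≤ (1 / 2) ^ u := half_exp u
    have h2f : (2 : ℝ) ^ f N ≤ 2 * (Real.sqrt 2) ^ u := by
      apply two_rpow
      refine hfN.trans ?_
      calc (N : ℝ) ^ (η / 2) = ((N : ℝ) ^ η) ^ (1 / 2 : ℝ) := by
            rw [← Real.rpow_mul (by positivity)]
            ring_nf
        _ ≤ ((u : ℝ) + 1) ^ (1 / 2 : ℝ) :=
            Real.rpow_le_rpow (by positivity) hult.le (by norm_num)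
    have hbr : (T : ℝ) * (1 / 2) ^ (u + 1) + u * ((u * u + 1) *
        (1 - (1 / (24 * (u : ℝ))) ^ k) ^ (u * (24 * u) ^ k)) + (1 / 2) ^ u ≤
        ((B : ℝ) + 2) * ((u : ℝ) + 1) ^ (D + 3) * (1 / 2) ^ u := by
      have hT2 : (T : ℝ) ≤ B * ((u : ℝ) + 1) ^ D := by exact_mod_cast hb2
      have h3 : (1 : ℝ) ≤ ((u : ℝ) + 1) ^ 3 := one_le_pow₀ (by linarith)
      have hDD : (1 : ℝ) ≤ ((u : ℝ) + 1) ^ D := one_le_pow₀ (by linarith)
      have hp : (0 : ℝ) < (1 / 2) ^ u := by positivity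
      have a1 : (T : ℝ) * (1 / 2) ^ (u + 1) ≤ B * ((u : ℝ) + 1) ^ (D + 3) * (1 / 2) ^ u := by
        rw [pow_succ (1 / 2 : ℝ) u, pow_add]
        have hT0 : (0 : ℝ) ≤ T := by positivity
        have hB0 : (0 : ℝ) ≤ B * ((u : ℝ) + 1) ^ D := by positivity
        have : (T : ℝ) ≤ B * ((u : ℝ) + 1) ^ D * ((u : ℝ) + 1) ^ 3 :=
          hT2.trans (le_mul_of_one_le_right hB0 h3)
        calc (T : ℝ) * ((1 / 2) ^ u * (1 / 2)) = T * (1 / 2) ^ u * (1 / 2) := by ring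
          _ ≤ T * (1 / 2) ^ u * 1 := by gcongr; norm_num
          _ ≤ B * (((u : ℝ) + 1) ^ D * ((u : ℝ) + 1) ^ 3) * (1 / 2) ^ u := by
            rw [mul_one, ← mul_assoc]
            gcongr
      have a2 : (u : ℝ) * ((u * u + 1) *
          (1 - (1 / (24 * (u : ℝ))) ^ k) ^ (u * (24 * u) ^ k)) ≤
          ((u : ℝ) + 1) ^ (D + 3) * (1 / 2) ^ u := by
        calc (u : ℝ) * ((u * u + 1) *
            (1 - (1 / (24 * (u : ℝ))) ^ k) ^ (u * (24 * u) ^ k))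
            ≤ (u : ℝ) * ((u * u + 1) * (1 / 2) ^ u) := by gcongr
          _ = (u * (u * u + 1)) * (1 / 2) ^ u := by ring
          _ ≤ ((u : ℝ) + 1) ^ 3 * (1 / 2) ^ u := by
            gcongr
            nlinarith
          _ ≤ ((u : ℝ) + 1) ^ (D + 3) * (1 / 2) ^ u := by
            rw [pow_add]
            gcongr
            exact le_mul_of_one_le_left (by positivity) hDD
      have a3 : ((1 : ℝ) / 2) ^ u ≤ ((u : ℝ) + 1) ^ (D + 3) * (1 / 2) ^ u :=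
        le_mul_of_one_le_left hp.le (one_le_pow₀ (by linarith))
      nlinarith [a1, a2, a3]
    calc _ ≤ ((B : ℝ) + 2) * ((u : ℝ) + 1) ^ (D + 3) * (1 / 2) ^ u *
          (2 * (Real.sqrt 2) ^ u) := by
          apply mul_le_mul hbr h2f (by positivity) (by positivity)
      _ = 2 * ((B : ℝ) + 2) * ((u : ℝ) + 1) ^ (D + 3) * (Real.sqrt 2 / 2) ^ u := by
          rw [div_pow, div_pow, one_pow]
          ring
      _ ≤ δ := hN2

end Pool.Agent.H752.AG
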