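import Pool.Agent.H752.AG.Base
import Pool.Agent.H620R2.Gauge.S

/-! Null sets of numbers and null sets of strings. -/

namespace Pool.Agent.H752.AG

open Pool.Agent.H620R2.Gauge

theorem nullN_iff (f : ℕ → ℝ) (X : Set (ℕ → Bool)) :
    NullN f X ↔ Null f {O : Oracle | (fun i => O (str i)) ∈ X} := by
  constructor
  · intro h δ hδ
    obtain ⟨S, hS, hsum⟩ := h δ hδ
    refine ⟨S, fun O hO => ?_, hsum⟩
    obtain ⟨σ, hσ, hσ'⟩ := hS _ hO
    exact ⟨σ, hσ, fun i hi => hσ' i hi⟩
  · intro h δ hδ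
    obtain ⟨S, hS, hsum⟩ := h δ hδ
    refine ⟨S, fun A hA => ?_, hsum⟩
    have h1 : (fun i => (fun y => A (idx y)) (str i)) = A := by
      funext i
      show A (idx (str i)) = A i
      rw [idx_str]
    obtain ⟨σ, hσ, hσ'⟩ := hS (fun y => A (idx y)) (by
      show (fun i => (fun y => A (idx y)) (str i)) ∈ X
      rw [h1]
      exact hA)
    refine ⟨σ, hσ, fun i hi => ?_⟩
    have h2 := hσ' i hi
    simp only [idx_str] at h2
    exact h2

end Pool.Agent.H752.AG
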