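import Pool.Agent.H752.AG.B3
import Pool.Agent.H752.AG.B4
import Pool.Agent.H752.AG.B5
import Pool.Agent.H752.AG.B6
import Pool.Agent.H620R2.Gauge2.Null

/-!
# The parity predicate is rarely definable by a bounded formula
-/

namespace Pool.Agent.H752.AG

open Finset H568R2 Pool.Agent.H676 Pool.Agent.H620R2.Gauge

namespace B7

/-- The set of numbers of an oracle on strings. -/
def num (O : Oracle) : ℕ → Bool := fun i => O (str i)

theorem ext_pre (N : ℕ) (O : Oracle) {z : ℕ} (hz : z < N) : ext N (pre N O) z = num O z := by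
  unfold ext
  rw [dif_pos hz]
  rfl

theorem parN_congr {A A' : ℕ → Bool} {x N : ℕ} (h : ∀ z < N, A z = A' z) (hx : x * x ≤ N) :
    ParN A x ↔ ParN A' x := by
  unfold ParN
  have : (Finset.range x).filter (fun y => A (x * (x - 1) + y) = true) =
      (Finset.range x).filter (fun y => A' (x * (x - 1) + y) = true) := by
    apply Finset.filter_congr
    intro y hy
    rw [Finset.mem_range] at hy
    have h1 : x * (x - 1) + y < N := by
      obtain ⟨m, rfl⟩ : ∃ m, x = m + 1 := ⟨x - 1, by omega⟩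
      have h2 : (m + 1) * (m + 1 - 1) + (m + 1) = (m + 1) * (m + 1) := by
        rw [Nat.add_sub_cancel]
        ring
      omega
    rw [h _ h1]
  rw [this]

theorem asg_mem_box (x X : ℕ) (hx : x ≤ X) : asg ![x] ∈ Box 1 X := by
  constructor
  · intro i hi
    obtain rfl : i = 0 := by omega
    simpa [asg] using hx
  · intro i hi
    unfold asg
    rw [dif_neg (by omega)]

theorem null_one {f : ℕ → ℝ} (hf : CondN f) (φ : BF) :
    Null f {O : Oracle | ∀ x, ParN (num O) x ↔ φ.sat (num O) (asg ![x])} := by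
  intro δ hδ
  obtain ⟨C, hC1, hC2⟩ := bf_poly φ
  obtain ⟨M, K, s, t, N, q, ht, h0, h1, hK, hs, hN, hN2, hb⟩ := asymN φ.dep C f hf δ hδ
  classical
  refine cover_of_event (N := N) (fun a => ∀ x ∈ Finset.Ico M (M + K),
    (φ.sat (ext N a) (asg ![x]) ↔ ParN (ext N a) x)) _ ?_ f δ ?_
  · intro O hO x hx
    rw [Finset.mem_Ico] at hx
    have hx2 : x ≤ 2 * M := by omega
    have e1 : φ.sat (ext N (pre N O)) (asg ![x]) ↔ φ.sat (num O) (asg ![x]) := by
      apply hC2 (2 * M) _ _ _ (asg_mem_box x (2 * M) hx2)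
      intro z hz
      exact ext_pre N O (lt_of_lt_of_le hz hN2)
    have e2 : ParN (ext N (pre N O)) x ↔ ParN (num O) x := by
      apply parN_congr (N := N)
      · intro z hz
        exact ext_pre N O hz
      · calc x * x ≤ (2 * M) * (2 * M) := Nat.mul_le_mul hx2 hx2
          _ = 4 * M * M := by ring
          _ ≤ N := hN
    rw [e1, e2]
    exact (hO x).symm
  · refine le_trans (mul_le_mul_of_nonneg_right ?_ (by positivity)) hb
    have h2 := event_bound (N := N) ht h0 h1 φ hK hs hN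
    refine le_trans (le_of_eq ?_) (le_trans h2 ?_)
    · congr 1
      funext a
      congr 1
    · have h3 : (φ.cnt 1 (2 * M) : ℝ) ≤ (((2 * M + 2) ^ C : ℕ) : ℝ) := by
        exact_mod_cast hC1 (2 * M)
      have h4 : (0 : ℝ) ≤ (12 * t * q) ^ (t + 1) := by positivity
      have h5 := mul_le_mul_of_nonneg_right h3 h4
      linarith

end B7

theorem nullN_par {f : ℕ → ℝ} (hf : CondN f) (O : Set (ℕ → Bool))
    (hO : ∀ A ∈ O, IsD0 A (fun v : Fin 1 → ℕ => ParN A (v 0))) : NullN f O := by
  rw [nullN_iff]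
  refine (null_iUnion (fun φ : BF => {Q : Oracle | ∀ x, ParN (B7.num Q) x ↔
    φ.sat (B7.num Q) (asg ![x])}) (fun φ => B7.null_one hf φ)).mono ?_
  intro Q hQ
  obtain ⟨φ, hφ⟩ := hO _ hQ
  rw [Set.mem_iUnion]
  exact ⟨φ, fun x => hφ ![x]⟩

end Pool.Agent.H752.AG
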