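import Pool.Agent.H752.AG.Base

/-! Task B8: oracles with a coding. -/

namespace Pool.Agent.H752.AG

open Finset H568R2 Pool.Agent.H676 Pool.Agent.H620R2.Gauge

namespace B8

theorem pr_inj {a b a' b' : ℕ} (h : pr a b = pr a' b') : a = a' ∧ b = b' := by
  unfold pr at h
  have key : ∀ {a b a' b' : ℕ}, (a + b) * (a + b) + b = (a' + b') * (a' + b') + b' →
      ¬ a + b < a' + b' := by
    intro a b a' b' h hlt
    have h1 : (a + b + 1) * (a + b + 1) ≤ (a' + b') * (a' + b') := Nat.mul_le_mul hlt hlt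
    nlinarith
  have h1 := key h
  have h2 := key h.symm
  have h3 : a + b = a' + b' := by omega
  rw [h3] at h
  omega

theorem tup_inj : ∀ {k : ℕ} {v w : Fin k → ℕ}, tup v = tup w → v = w
  | 0, v, w, _ => funext fun i => i.elim0
  | k + 1, v, w, h => by
    have h' : pr (v 0) (tup (fun i => v i.succ)) = pr (w 0) (tup (fun i => w i.succ)) := h
    obtain ⟨h1, h2⟩ := pr_inj h'
    have h3 := tup_inj h2
    funext i
    refine Fin.cases h1 (fun i => ?_) i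
    exact congrFun h3 i

theorem codeN_inj {k K : ℕ → ℕ} (hK : ∀ e, 1 ≤ K e)
    {p q : (e : ℕ) × (Fin (k e) → ℕ)} (h : codeN K p.1 p.2 = codeN K q.1 q.2) : p = q := by
  obtain ⟨e, v⟩ := p
  obtain ⟨e', v'⟩ := q
  obtain ⟨h1, h2⟩ := pr_inj h
  dsimp only at h1 h2
  subst h1
  have h3 : tup v + 2 = tup v' + 2 :=
    Nat.pow_left_injective (by have := hK e; omega) h2
  have h4 := tup_inj (show tup v = tup v' by omega)
  rw [h4]

theorem le_codeN (K : ℕ → ℕ) (e : ℕ) {k : ℕ} (v : Fin k → ℕ) :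
    (tup v + 2) ^ K e ≤ codeN K e v := Nat.le_add_left _ _

section

variable (k : ℕ → ℕ) (V : (e : ℕ) → (ℕ → Bool) → (Fin (k e) → ℕ) → Prop) (K : ℕ → ℕ)

open Classical in
/-- the coded oracle -/
noncomputable def Phi (B : ℕ → Bool) (y : ℕ) : Bool :=
  if h : ∃ p : (e : ℕ) × (Fin (k e) → ℕ), y = codeN K p.1 p.2 then
    decide (V h.choose.1 (fun z => if _h : z < y then Phi B z else false) h.choose.2)
  else B y
termination_by y

end

end B8

theorem exists_codingN (k : ℕ → ℕ) (V : (e : ℕ) → (ℕ → Bool) → (Fin (k e) → ℕ) → Prop)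
    (K : ℕ → ℕ) (hK : ∀ e, 1 ≤ K e)
    (hV : ∀ e A A' (v : Fin (k e) → ℕ), (∀ z < (tup v + 2) ^ K e, A z = A' z) →
      (V e A v ↔ V e A' v)) :
    ∃ Φ : (ℕ → Bool) → (ℕ → Bool),
      (∀ B y, (∀ e, ∀ v : Fin (k e) → ℕ, y ≠ codeN K e v) → Φ B y = B y) ∧
      ∀ B e, ∀ v : Fin (k e) → ℕ, (Φ B (codeN K e v) = true ↔ V e (Φ B) v) := by
  classical
  refine ⟨B8.Phi k V K, fun B y h => ?_, fun B e v => ?_⟩
  · rw [B8.Phi, dif_neg]
    rintro ⟨p, hp⟩
    exact h p.1 p.2 hp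
  · have hex : ∃ p : (e : ℕ) × (Fin (k e) → ℕ), codeN K e v = codeN K p.1 p.2 := ⟨⟨e, v⟩, rfl⟩
    have hp : hex.choose = ⟨e, v⟩ := (B8.codeN_inj (p := ⟨e, v⟩) hK hex.choose_spec).symm
    rw [B8.Phi, dif_pos hex, decide_eq_true_iff, hp]
    refine hV e _ _ v fun z hz => ?_
    rw [dif_pos (lt_of_lt_of_le hz (B8.le_codeN K e v))]

end Pool.Agent.H752.AG
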