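import Pool.Agent.H752.AG.Base

/-! Task B9: the codes are the values of terms. -/

namespace Pool.Agent.H752.AG

open Finset H568R2 Pool.Agent.H676 Pool.Agent.H620R2.Gauge

namespace B9

/-- the term for the code of a shifted tuple -/
def tupTm : ℕ → ℕ → Tm
  | 0, _ => .zero
  | k + 1, j => .add (.mul (.add (.var j) (tupTm k (j + 1))) (.add (.var j) (tupTm k (j + 1))))
      (tupTm k (j + 1))

theorem tupTm_val (v : ℕ → ℕ) : ∀ (k j : ℕ),
    (tupTm k j).val v = tup (fun i : Fin k => v (j + i))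
  | 0, j => rfl
  | k + 1, j => by
    have h := tupTm_val v k (j + 1)
    show (v j + (tupTm k (j + 1)).val v) * (v j + (tupTm k (j + 1)).val v) +
      (tupTm k (j + 1)).val v = pr (v (j + ((0 : Fin (k + 1)) : ℕ)))
        (tup (fun i : Fin k => v (j + ((i.succ : Fin (k + 1)) : ℕ))))
    have h2 : (fun i : Fin k => v (j + ((i.succ : Fin (k + 1)) : ℕ))) =
        (fun i : Fin k => v (j + 1 + i)) := by
      funext i
      rw [Fin.val_succ, add_assoc, add_comm 1 (i : ℕ)]
    rw [h, h2]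
    rfl

/-- powers -/
def powTm (t : Tm) : ℕ → Tm
  | 0 => .one
  | n + 1 => .mul (powTm t n) t

theorem powTm_val (t : Tm) (v : ℕ → ℕ) : ∀ n, (powTm t n).val v = t.val v ^ n
  | 0 => (pow_zero _).symm
  | n + 1 => by
    show (powTm t n).val v * t.val v = _
    rw [powTm_val t v n, pow_succ]

/-- constants -/
def natTm : ℕ → Tm
  | 0 => .zero
  | n + 1 => .add (natTm n) .one

theorem natTm_val (v : ℕ → ℕ) : ∀ n, (natTm n).val v = n
  | 0 => rfl
  | n + 1 => by
    show (natTm n).val v + 1 = n + 1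
    rw [natTm_val v n]

end B9

theorem codeN_term (K : ℕ → ℕ) (e k : ℕ) : ∃ t : Tm, ∀ v : Fin k → ℕ,
    t.val (asg v) = codeN K e v := by
  refine ⟨.add (.mul
    (.add (B9.natTm e) (B9.powTm (.add (B9.tupTm k 0) (B9.natTm 2)) (K e)))
    (.add (B9.natTm e) (B9.powTm (.add (B9.tupTm k 0) (B9.natTm 2)) (K e))))
    (B9.powTm (.add (B9.tupTm k 0) (B9.natTm 2)) (K e)), fun v => ?_⟩
  have h1 : (B9.tupTm k 0).val (asg v) = tup v := by
    rw [B9.tupTm_val]
    refine congrArg tup (funext fun i => ?_)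
    show (if h : 0 + (i : ℕ) < k then v ⟨0 + i, h⟩ else 0) = v i
    rw [dif_pos (by rw [zero_add]; exact i.2)]
    refine congrArg v (Fin.ext ?_)
    exact zero_add _
  have h2 : (B9.powTm (.add (B9.tupTm k 0) (B9.natTm 2)) (K e)).val (asg v) =
      (tup v + 2) ^ K e := by
    rw [B9.powTm_val]
    show ((B9.tupTm k 0).val (asg v) + (B9.natTm 2).val (asg v)) ^ K e = _
    rw [h1, B9.natTm_val]
  show ((B9.natTm e).val (asg v) + (B9.powTm (.add (B9.tupTm k 0) (B9.natTm 2)) (K e)).val (asg v)) *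
    ((B9.natTm e).val (asg v) + (B9.powTm (.add (B9.tupTm k 0) (B9.natTm 2)) (K e)).val (asg v)) +
    (B9.powTm (.add (B9.tupTm k 0) (B9.natTm 2)) (K e)).val (asg v) = codeN K e v
  rw [h2, B9.natTm_val]
  rfl

end Pool.Agent.H752.AG
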