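import Pool.Agent.H752.AG.Defs
import Pool.Agent.H620R2.Gauge.Base

/-!
# The objects of the proof
-/

namespace Pool.Agent.H752.AG

open Finset H568R2 Pool.Agent.H676 Pool.Agent.H620R2.Gauge

deriving instance Countable for Tm
deriving instance Countable for BF
deriving instance Countable for FO

/-- The condition on the gauge. -/
def CondN (f : ℕ → ℝ) : Prop :=
  ∀ ε : ℝ, 0 < ε → ∃ᶠ N : ℕ in Filter.atTop, f N ≤ (N : ℝ) ^ ε

/-- The test predicate: the number of elements of `A` among the `x` numbers from `x (x - 1)` on is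
odd. -/
def ParN (A : ℕ → Bool) (x : ℕ) : Prop :=
  Odd ((Finset.range x).filter (fun y => A (x * (x - 1) + y) = true)).card

/-- The oracle with the given first `N` bits (and no other numbers). -/
def ext (N : ℕ) (a : Fin N → Bool) : ℕ → Bool := fun i => if h : i < N then a ⟨i, h⟩ else false

/-- The `x` positions from `x (x - 1)` on. -/
def blkN (N x : ℕ) : Finset (Fin N) :=
  univ.filter (fun i => x * (x - 1) ≤ i.1 ∧ i.1 < x * (x - 1) + x)

/-- The assignments with values at most `X` for the first `w` variables and `0` for the others. -/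
def Box (w X : ℕ) : Set (ℕ → ℕ) := {v | (∀ i < w, v i ≤ X) ∧ ∀ i, w ≤ i → v i = 0}

/-- The number of switching rounds for a formula. -/
def BF.dep : BF → ℕ
  | .eq _ _ => 0
  | .le _ _ => 0
  | .orc _ => 0
  | .neg φ => φ.dep
  | .and φ ψ => max φ.dep ψ.dep + 1
  | .bex _ φ => φ.dep + 1

/-- A bound for the values of the bound variable. -/
def nxt (t : Tm) (X : ℕ) : ℕ := X + t.val (fun _ => X)

/-- The number of bad events for a formula. -/
def BF.cnt : BF → ℕ → ℕ → ℕ
  | .eq _ _, _, _ => 0
  | .le _ _, _, _ => 0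
  | .orc _, _, _ => 0
  | .neg φ, w, X => φ.cnt w X
  | .and φ ψ, w, X => φ.cnt w X + ψ.cnt w X + (X + 1) ^ w
  | .bex t φ, w, X => φ.cnt (w + 1) (nxt t X) + (X + 1) ^ w

/-- A pairing function given by a polynomial. -/
def pr (a b : ℕ) : ℕ := (a + b) * (a + b) + b

/-- Coding of tuples. -/
def tup : {k : ℕ} → (Fin k → ℕ) → ℕ
  | 0, _ => 0
  | _ + 1, v => pr (v 0) (tup (fun i => v i.succ))

/-- The code of the question whether the predicate number `e` holds for `v`. -/
def codeN (K : ℕ → ℕ) (e : ℕ) {k : ℕ} (v : Fin k → ℕ) : ℕ := pr e ((tup v + 2) ^ K e)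

end Pool.Agent.H752.AG
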