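import Mathlib

/-!
# Bounded arithmetic formulas, Grzegorczyk's class `E²` and spectra relative to a set of numbers

An oracle is a set `A` of natural numbers, given by its characteristic function `ℕ → Bool`.
-/

namespace Pool.Agent.H752.AG

/-- The terms of the language `0, 1, +, ·`; the variables have the numbers `0, 1, 2, ...`. -/
inductive Tm : Type
  | var (i : ℕ)
  | zero
  | one
  | add (s t : Tm)
  | mul (s t : Tm)

/-- The value of a term. -/
def Tm.val (v : ℕ → ℕ) : Tm → ℕ
  | .var i => v i
  | .zero => 0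
  | .one => 1
  | .add s t => s.val v + t.val v
  | .mul s t => s.val v * t.val v

/-- The assignment with the value `x` for the variable number `0` and `v i` for the variable number
`i + 1`. -/
def cons (x : ℕ) (v : ℕ → ℕ) : ℕ → ℕ
  | 0 => x
  | i + 1 => v i

/-- The bounded formulas of the language `=, ≤, 0, 1, +, ·` with one more unary predicate symbol
for the oracle. In `bex t φ` the variable number `0` of `φ` is bound, and the variable number
`i + 1` of `φ` is the variable number `i` of `bex t φ`. -/
inductive BF : Type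
  | eq (s t : Tm)
  | le (s t : Tm)
  | orc (t : Tm)
  | neg (φ : BF)
  | and (φ ψ : BF)
  | bex (t : Tm) (φ : BF)

/-- The truth of a bounded formula, where the additional predicate symbol stands for the set `A`. -/
def BF.sat (A : ℕ → Bool) : BF → (ℕ → ℕ) → Prop
  | .eq s t, v => s.val v = t.val v
  | .le s t, v => s.val v ≤ t.val v
  | .orc t, v => A (t.val v) = true
  | .neg φ, v => ¬ φ.sat A v
  | .and φ ψ, v => φ.sat A v ∧ ψ.sat A v
  | .bex t φ, v => ∃ x, x ≤ t.val v ∧ φ.sat A (cons x v)

/-- The assignment given by a tuple; the other variables have the value `0`. -/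
def asg {k : ℕ} (a : Fin k → ℕ) : ℕ → ℕ := fun i => if h : i < k then a ⟨i, h⟩ else 0

/-- The predicate `R` is definable by a bounded formula relative to `A`. -/
def IsD0 (A : ℕ → Bool) {k : ℕ} (R : (Fin k → ℕ) → Prop) : Prop :=
  ∃ φ : BF, ∀ a : Fin k → ℕ, R a ↔ φ.sat A (asg a)

/-- Grzegorczyk's class `E²` relative to `A`: the functions obtained from the zero functions, the
successor, the projections, `(x + 1) (y + 1)` and the characteristic function of `A` by composition
and limited recursion. -/
inductive E2 (A : ℕ → Bool) : (k : ℕ) → ((Fin k → ℕ) → ℕ) → Prop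
  | zero (k : ℕ) : E2 A k (fun _ => 0)
  | succ : E2 A 1 (fun v => v 0 + 1)
  | proj (k : ℕ) (i : Fin k) : E2 A k (fun v => v i)
  | mul : E2 A 2 (fun v => (v 0 + 1) * (v 1 + 1))
  | orc : E2 A 1 (fun v => (A (v 0)).toNat)
  | comp (n m : ℕ) (g : (Fin m → ℕ) → ℕ) (hs : Fin m → (Fin n → ℕ) → ℕ) :
      E2 A m g → (∀ i, E2 A n (hs i)) → E2 A n (fun v => g (fun i => hs i v))
  | lrec (n : ℕ) (g : (Fin n → ℕ) → ℕ) (h : (Fin (n + 2) → ℕ) → ℕ)
      (b F : (Fin (n + 1) → ℕ) → ℕ) : E2 A n g → E2 A (n + 2) h → E2 A (n + 1) b →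
      (∀ v, F v ≤ b v) → (∀ v, F (Matrix.vecCons 0 v) = g v) →
      (∀ (v : Fin n → ℕ) (y : ℕ), F (Matrix.vecCons (y + 1) v) =
        h (Matrix.vecCons (F (Matrix.vecCons y v)) (Matrix.vecCons y v))) → E2 A (n + 1) F

/-- The predicate `R` is in `E²_*` relative to `A`: its characteristic function (with the value `0`
for true and `1` for false) is in `E²` relative to `A`. -/
def IsE2s (A : ℕ → Bool) {k : ℕ} (R : (Fin k → ℕ) → Prop) : Prop :=
  ∃ f : (Fin k → ℕ) → ℕ, E2 A k f ∧ ∀ v, (R v → f v = 0) ∧ (¬ R v → f v = 1)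

/-- First-order formulas with equality, a symbol for an order, relation symbols for the oracle, and
further relation symbols: the symbol number `r` with `k` arguments, for all `r` and `k`. In `ex φ`
the variable number `0` of `φ` is bound. -/
inductive FO : Type
  | eq (i j : ℕ)
  | le (i j : ℕ)
  | orc (l : List ℕ)
  | rel (r : ℕ) (l : List ℕ)
  | neg (φ : FO)
  | and (φ ψ : FO)
  | ex (φ : FO)

/-- The truth of a first-order formula in the structure with the elements `0, ..., n - 1` in their
natural order and with the relations `R`; the oracle symbol with `k` arguments is true for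
`x_1, ..., x_k` if the number `x_1 + x_2 n + ... + x_k n ^ (k - 1)` is in `A`. -/
def FO.sat (A : ℕ → Bool) (n : ℕ) (R : ℕ → List ℕ → Prop) : FO → (ℕ → ℕ) → Prop
  | .eq i j, v => v i = v j
  | .le i j, v => v i ≤ v j
  | .orc l, v => A (Nat.ofDigits n (l.map v)) = true
  | .rel r l, v => R r (l.map v)
  | .neg φ, v => ¬ φ.sat A n R v
  | .and φ ψ, v => φ.sat A n R v ∧ ψ.sat A n R v
  | .ex φ, v => ∃ x, x < n ∧ φ.sat A n R (cons x v)

/-- The spectrum of `φ` relative to `A`: the numbers `n ≥ 1` such that `φ` is true (with the value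
`0` for the free variables) in some structure as above with `n` elements. -/
def spec (A : ℕ → Bool) (φ : FO) : Set ℕ :=
  {n | 1 ≤ n ∧ ∃ R : ℕ → List ℕ → Prop, φ.sat A n R (fun _ => 0)}

/-- The set `X` of oracles is a null set for the gauge `f`: for every `δ > 0` there is a family
`S` of finite sequences such that every oracle in `X` extends one of them and the sum of
`2 ^ (f |σ| - |σ|)` over `S` is at most `δ`. For `f = 0` these are the Lebesgue null sets, and for
`f n = (1 - s) n` the null sets of the `s`-dimensional Hausdorff measure. -/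
def NullN (f : ℕ → ℝ) (X : Set (ℕ → Bool)) : Prop :=
  ∀ δ : ℝ, 0 < δ → ∃ S : Set (List Bool),
    (∀ A ∈ X, ∃ σ ∈ S, ∀ (i : ℕ) (h : i < σ.length), A i = σ[i]) ∧
    ∑' σ : S, ENNReal.ofReal (2 ^ (f σ.1.length - σ.1.length)) ≤ ENNReal.ofReal δ

end Pool.Agent.H752.AG
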