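import Pool.Agent.H752.AG.B6
import Pool.Agent.H752.AG.B7
import Pool.Agent.H752.AG.B8
import Pool.Agent.H752.AG.B9
import Pool.Agent.H752.AG.B10
import Pool.Agent.H752.AG.B11
import Pool.Agent.H752.AG.B12
import Pool.Agent.H752.AG.B13
import Pool.Agent.H752.AG.B14
import Pool.Agent.H752.AG.B15
import Pool.Agent.H620R2.GaugeR.R8
import Pool.Agent.H620R2.Gauge.S

/-! The thresholds for `Δ₀ = E²_*` and for spectra and rudimentary sets. -/

namespace Pool.Agent.H752.AG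

open Finset H568R2 Pool.Agent.H676 Pool.Agent.H620R2.Gauge MeasureTheory

open Classical in
theorem not_nullN (f : ℕ → ℝ) (hf : ¬ CondN f) (k : ℕ → ℕ)
    (V : (e : ℕ) → (ℕ → Bool) → (Fin (k e) → ℕ) → Prop) (d : ℕ → ℕ)
    (hV : ∀ e A A' (v : Fin (k e) → ℕ), (∀ z < (tup v + 2) ^ d e, A z = A' z) →
      (V e A v ↔ V e A' v)) (O : Set (ℕ → Bool))
    (hO : ∀ A : ℕ → Bool, (∀ e, ∃ t : Tm, ∀ v : Fin (k e) → ℕ,
      V e A v ↔ A (t.val (asg v)) = true) → A ∈ O) : ¬ NullN f O := by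
  unfold CondN at hf
  push Not at hf
  obtain ⟨ε, hε, hf⟩ := hf
  obtain ⟨K₀, hK₀⟩ := sparseN k ε hε
  set K : ℕ → ℕ := fun e => K₀ + e + d e + 1 with hK
  have hcount := hK₀ K fun e => by rw [hK]; simp only; omega
  obtain ⟨Φ, h1, h2⟩ := exists_codingN k V K (fun e => by rw [hK]; simp only; omega)
    (fun e A A' v h => hV e A A' v fun z hz => h z (lt_of_lt_of_le hz
      (Nat.pow_le_pow_right (by omega) (by rw [hK]; simp only; omega))))
  set T : Set (List Bool) := {y | ∃ e, ∃ v : Fin (k e) → ℕ, idx y = codeN K e v} with hT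
  have hTc : ∀ N : ℕ, ((Finset.range N).filter (fun i => str i ∈ T)).card =
      ((Finset.range N).filter (fun i => ∃ e, ∃ v : Fin (k e) → ℕ, i = codeN K e v)).card := by
    intro N
    congr 1
    ext i
    simp only [Finset.mem_filter, hT, Set.mem_ofPred_eq, idx_str]
  obtain ⟨N₀, hN₀⟩ := Filter.eventually_atTop.1 (hf.and hcount)
  obtain ⟨c, hc0, hc⟩ : ∃ c : ℝ, 0 ≤ c ∧ ∀ N < N₀,
      (((Finset.range N).filter (fun i => str i ∈ T)).card : ℝ) ≤ f N + c := by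
    refine ⟨∑ N ∈ Finset.range N₀, |(((Finset.range N).filter (fun i => str i ∈ T)).card : ℝ) - f N|,
      Finset.sum_nonneg fun _ _ => abs_nonneg _, fun N hN => ?_⟩
    have h3 := Finset.single_le_sum
      (f := fun N => |(((Finset.range N).filter (fun i => str i ∈ T)).card : ℝ) - f N|)
      (fun _ _ => abs_nonneg _) (Finset.mem_range.2 hN)
    linarith [le_abs_self ((((Finset.range N).filter (fun i => str i ∈ T)).card : ℝ) - f N)]
  rw [nullN_iff]
  refine not_null_of f Set.univ (by simp [ranO])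
    (fun B y => Φ (fun i => B (str i)) (idx y)) T ?_ c ?_ _ ?_
  · intro B y hy
    show Φ (fun i => B (str i)) (idx y) = B y
    rw [h1 _ _ (fun e v h => hy ⟨e, v, h⟩)]
    show B (str (idx y)) = B y
    rw [str_idx]
  · intro N
    by_cases hN : N < N₀
    · exact hc N hN
    · obtain ⟨h3, h4⟩ := hN₀ N (not_lt.1 hN)
      rw [hTc]
      linarith
  · intro B _
    show (fun i => Φ (fun i => B (str i)) (idx (str i))) ∈ O
    have h3 : (fun i => Φ (fun i => B (str i)) (idx (str i))) = Φ (fun i => B (str i)) := by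
      funext i
      rw [idx_str]
    rw [h3]
    apply hO
    intro e
    obtain ⟨t, ht⟩ := codeN_term K e (k e)
    refine ⟨t, fun v => ?_⟩
    rw [ht]
    exact (h2 _ e v).symm

theorem isD0_of_term {A : ℕ → Bool} {k : ℕ} {R : (Fin k → ℕ) → Prop} {t : Tm}
    (h : ∀ v, R v ↔ A (t.val (asg v)) = true) : IsD0 A R :=
  ⟨BF.orc t, h⟩

/-- Both directions for `E²_*`. -/
theorem keyE2 (f : ℕ → ℝ) (O : Set (ℕ → Bool))
    (h1 : ∀ A : ℕ → Bool, (∀ (k : ℕ) (R : (Fin k → ℕ) → Prop), IsE2s A R →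
      ∃ t : Tm, ∀ v, R v ↔ A (t.val (asg v)) = true) → A ∈ O)
    (h2 : ∀ A ∈ O, ∀ R : (Fin 1 → ℕ) → Prop, IsE2s A R → IsD0 A R) :
    NullN f O ↔ ∀ ε : ℝ, 0 < ε → ∃ᶠ N : ℕ in Filter.atTop, f N ≤ (N : ℝ) ^ ε := by
  constructor
  · intro hn
    by_contra hf
    obtain ⟨k, V, d, hV, hR⟩ := E2_fam
    refine not_nullN f hf k V d hV O (fun A hA => h1 A fun n R hR' => ?_) hn
    obtain ⟨e, rfl, h⟩ := hR A n R hR'
    obtain ⟨t, ht⟩ := hA e
    exact ⟨t, fun v => (h v).trans (ht v)⟩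
  · intro hf
    exact nullN_par hf O fun A hA => h2 A hA _ (par_E2 A)

/-- Both directions for spectra. -/
theorem keySpec (f : ℕ → ℝ) (O : Set (ℕ → Bool))
    (h1 : ∀ A : ℕ → Bool, (∀ φ : FO, ∃ t : Tm, ∀ v : Fin 1 → ℕ,
      v 0 ∈ spec A φ ↔ A (t.val (asg v)) = true) → A ∈ O)
    (h2 : ∀ A ∈ O, ∀ φ : FO, IsD0 A (fun v : Fin 1 → ℕ => v 0 ∈ spec A φ)) :
    NullN f O ↔ ∀ ε : ℝ, 0 < ε → ∃ᶠ N : ℕ in Filter.atTop, f N ≤ (N : ℝ) ^ ε := by
  constructor
  · intro hn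
    by_contra hf
    have : Nonempty FO := ⟨.eq 0 0⟩
    obtain ⟨g, hg⟩ := exists_surjective_nat FO
    choose d hd using spec_local
    refine not_nullN f hf (fun _ => 1) (fun e A v => v 0 ∈ spec A (g e)) (fun e => d (g e))
      (fun e A A' v h => hd (g e) A A' (v 0) fun z hz => h z (lt_of_lt_of_le hz
        (Nat.pow_le_pow_left ?_ _))) O (fun A hA => h1 A fun φ => ?_) hn
    · have : v 0 ≤ tup v := by
        show v 0 ≤ (v 0 + 0) * (v 0 + 0) + 0
        nlinarith [Nat.zero_le (v 0), Nat.le_mul_self (v 0)]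
      omega
    · obtain ⟨e, rfl⟩ := hg φ
      exact hA e
  · intro hf
    obtain ⟨φ, hφ⟩ := par_spec
    refine nullN_par hf O fun A hA => ?_
    have h := h2 A hA φ
    rw [hφ A] at h
    exact h

theorem null_E2 (f : ℕ → ℝ) :
    NullN f {A : ℕ → Bool | ∀ (k : ℕ) (R : (Fin k → ℕ) → Prop), IsD0 A R ↔ IsE2s A R} ↔
      ∀ ε : ℝ, 0 < ε → ∃ᶠ N : ℕ in Filter.atTop, f N ≤ (N : ℝ) ^ ε := by
  apply keyE2
  · intro A hA k R
    refine ⟨fun h => h.isE2s, fun h => ?_⟩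
    obtain ⟨t, ht⟩ := hA k R h
    exact isD0_of_term ht
  · intro A hA R hR
    exact (hA 1 R).2 hR

theorem null_spec (f : ℕ → ℝ) :
    NullN f {A : ℕ → Bool | ∀ φ : FO, IsD0 A (fun v : Fin 1 → ℕ => v 0 ∈ spec A φ)} ↔
      ∀ ε : ℝ, 0 < ε → ∃ᶠ N : ℕ in Filter.atTop, f N ≤ (N : ℝ) ^ ε := by
  apply keySpec
  · intro A hA φ
    obtain ⟨t, ht⟩ := hA φ
    exact isD0_of_term ht
  · intro A hA φ
    exact hA φ

end Pool.Agent.H752.AG
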