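import Pool.Agent.H752.AG.Base

/-! Stubs. Never import this file in a finished file. -/

namespace Pool.Agent.H752.AG

open Finset H568R2 Pool.Agent.H676 Pool.Agent.H620R2.Gauge

/-! ### Task B1: file `AG/B1.lean` -/

open Classical in
theorem switch_BF {N t : ℕ} (ht : 1 ≤ t) {q : ℝ} (h0 : 0 ≤ q) (h1 : q ≤ 1 / 3) (φ : BF)
    (w X : ℕ) :
    Ex (wq (q ^ φ.dep)) (fun ρ : Restr (Fin N) => if ¬ ∀ v ∈ Box w X,
      DTr t (rs (fun a : Fin N → Bool => decide (φ.sat (ext N a) v)) ρ) then (1 : ℝ) else 0) ≤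
      φ.cnt w X * (12 * t * q) ^ (t + 1) := by sorry

/-! ### Task B2: file `AG/B2.lean` -/

open Classical in
theorem comb_gen {I : Type*} [Fintype I] [DecidableEq I] {t : ℕ} {Q : ℝ} (h0 : 0 ≤ Q)
    (h1 : Q ≤ 1) {ι : Type*} (X : Finset ι) (B : ι → Finset I)
    (hB : ∀ x ∈ X, ∀ x' ∈ X, x ≠ x' → Disjoint (B x) (B x')) (V : ι → (I → Bool) → Bool) (β : ℝ)
    (hβ : Ex (wq Q) (fun ρ : Restr I => if ¬ ∀ x ∈ X, DTr t (rs (V x) ρ) then (1 : ℝ) else 0) ≤ β)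
    (r s : ℕ) (hr : X.card * t ≤ r) (hs : ∀ x ∈ X, (r + 1) * s ≤ (B x).card) :
    Ex unif (fun a : I → Bool => if ∀ x ∈ X, V x a = par (B x) a then (1 : ℝ) else 0) ≤
      β + X.card * ((r + 1) * (1 - Q) ^ s) + (1 / 2) ^ X.card := by sorry

/-! ### Task B3: file `AG/B3.lean` (uses B1, B2) -/

open Classical in
theorem event_bound {t : ℕ} (ht : 1 ≤ t) {q : ℝ} (h0 : 0 ≤ q) (h1 : q ≤ 1 / 3) (φ : BF)
    {M K N s : ℕ} (hK : K ≤ M) (hs : (K * t + 1) * s ≤ M) (hN : 4 * M * M ≤ N) :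
    Ex unif (fun a : Fin N → Bool => if ∀ x ∈ Finset.Ico M (M + K),
      (φ.sat (ext N a) (asg ![x]) ↔ ParN (ext N a) x) then (1 : ℝ) else 0) ≤
      φ.cnt 1 (2 * M) * (12 * t * q) ^ (t + 1) + K * ((K * t + 1) * (1 - q ^ φ.dep) ^ s) +
        (1 / 2) ^ K := by sorry

/-! ### Task B4: file `AG/B4.lean` -/

theorem bf_poly (φ : BF) : ∃ C : ℕ, (∀ X, φ.cnt 1 X ≤ (X + 2) ^ C) ∧
    ∀ (X : ℕ) (v : ℕ → ℕ) (A A' : ℕ → Bool), v ∈ Box 1 X →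
      (∀ z < (X + 2) ^ C, A z = A' z) → (φ.sat A v ↔ φ.sat A' v) := by sorry

/-! ### Task B5: file `AG/B5.lean` -/

theorem asymN (k C : ℕ) (f : ℕ → ℝ) (hf : CondN f) (δ : ℝ) (hδ : 0 < δ) :
    ∃ (M K s t N : ℕ) (q : ℝ), 1 ≤ t ∧ 0 ≤ q ∧ q ≤ 1 / 3 ∧ K ≤ M ∧ (K * t + 1) * s ≤ M ∧
      4 * M * M ≤ N ∧ (2 * M + 2) ^ C ≤ N ∧
      (((2 * M + 2) ^ C : ℕ) * (12 * t * q) ^ (t + 1) + K * ((K * t + 1) * (1 - q ^ k) ^ s) +
        (1 / 2) ^ K) * 2 ^ f N ≤ δ := by sorry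

/-! ### Task B6: file `AG/B6.lean` -/

theorem nullN_iff (f : ℕ → ℝ) (X : Set (ℕ → Bool)) :
    NullN f X ↔ Null f {O : Oracle | (fun i => O (str i)) ∈ X} := by sorry

/-! ### Task B7: file `AG/B7.lean` (uses B3, B4, B5, B6) -/

theorem nullN_par {f : ℕ → ℝ} (hf : CondN f) (O : Set (ℕ → Bool))
    (hO : ∀ A ∈ O, IsD0 A (fun v : Fin 1 → ℕ => ParN A (v 0))) : NullN f O := by sorry

/-! ### Task B8: file `AG/B8.lean` -/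

theorem exists_codingN (k : ℕ → ℕ) (V : (e : ℕ) → (ℕ → Bool) → (Fin (k e) → ℕ) → Prop)
    (K : ℕ → ℕ) (hK : ∀ e, 1 ≤ K e)
    (hV : ∀ e A A' (v : Fin (k e) → ℕ), (∀ z < (tup v + 2) ^ K e, A z = A' z) →
      (V e A v ↔ V e A' v)) :
    ∃ Φ : (ℕ → Bool) → (ℕ → Bool),
      (∀ B y, (∀ e, ∀ v : Fin (k e) → ℕ, y ≠ codeN K e v) → Φ B y = B y) ∧
      ∀ B e, ∀ v : Fin (k e) → ℕ, (Φ B (codeN K e v) = true ↔ V e (Φ B) v) := by sorry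

/-! ### Task B9: file `AG/B9.lean` -/

theorem codeN_term (K : ℕ → ℕ) (e k : ℕ) : ∃ t : Tm, ∀ v : Fin k → ℕ,
    t.val (asg v) = codeN K e v := by sorry

/-! ### Task B10: file `AG/B10.lean` -/

open Classical in
theorem sparseN (k : ℕ → ℕ) (ε : ℝ) (hε : 0 < ε) : ∃ K₀ : ℕ, ∀ K : ℕ → ℕ, (∀ e, K₀ + e ≤ K e) →
    ∀ᶠ N : ℕ in Filter.atTop, (((Finset.range N).filter (fun i => ∃ e, ∃ v : Fin (k e) → ℕ,
      i = codeN K e v)).card : ℝ) ≤ (N : ℝ) ^ ε := by sorry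

/-! ### Task B11: file `AG/B11.lean` -/

theorem E2_fam : ∃ (k : ℕ → ℕ) (V : (e : ℕ) → (ℕ → Bool) → (Fin (k e) → ℕ) → Prop) (d : ℕ → ℕ),
    (∀ e A A' (v : Fin (k e) → ℕ), (∀ z < (tup v + 2) ^ d e, A z = A' z) →
      (V e A v ↔ V e A' v)) ∧
    ∀ (A : ℕ → Bool) (n : ℕ) (R : (Fin n → ℕ) → Prop), IsE2s A R →
      ∃ e, ∃ h : k e = n, ∀ v : Fin n → ℕ, R v ↔ V e A (h ▸ v) := by sorry

/-! ### Task B12: file `AG/B12.lean` -/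

theorem par_E2 (A : ℕ → Bool) : IsE2s A (fun v : Fin 1 → ℕ => ParN A (v 0)) := by sorry

/-! ### Task B13: file `AG/B13.lean` -/

theorem IsD0.isE2s {A : ℕ → Bool} {k : ℕ} {R : (Fin k → ℕ) → Prop} (h : IsD0 A R) :
    IsE2s A R := by sorry

/-! ### Task B14: file `AG/B14.lean` -/

theorem spec_local (φ : FO) : ∃ d : ℕ, ∀ (A A' : ℕ → Bool) (n : ℕ),
    (∀ z < (n + 2) ^ d, A z = A' z) → (n ∈ spec A φ ↔ n ∈ spec A' φ) := by sorry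

/-! ### Task B15: file `AG/B15.lean` -/

theorem par_spec : ∃ φ : FO, ∀ A : ℕ → Bool, spec A φ = {x | ParN A x} := by sorry

end Pool.Agent.H752.AG
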